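import Pool.Agent.MP_e6aac2_al.Mg.Nec

/-!
A recursively enumerable event comparing Følner sets in the finite level quotients of a
self-similar group.
-/

noncomputable section

namespace Pool.Agent.MP_e6aac2_al.H11S

open Primrec

section General

variable {M : Type} [Group M] {r : ℕ}

lemma table_of_folner (e : Fin r → M) {n : ℕ} {E : Set M} (hfin : E.Finite) (hne : E.Nonempty)
    (hE : ∀ a, n * (2 * bd E (e a)) < E.ncard) :
    ∃ N < (E.ncard + 1) ^ (r * E.ncard), C12 r n E.ncard N ∧ ∃ φ : ℕ → M, ∀ a : Fin r,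
      ∀ i < E.ncard, Dv E.ncard N a i ≠ E.ncard → φ (Dv E.ncard N a i) = e a * φ i := by
  classical
  set l := E.ncard with hl
  have hl0 : 0 < l := (Set.ncard_pos hfin).2 hne
  have : Finite E := hfin
  let c : E ≃ Fin l := Finite.equivFinOfCardEq (Nat.card_coe_set_eq E)
  let φ : ℕ → M := fun i => if hi : i < l then c.symm ⟨i, hi⟩ else 1
  have hφ : ∀ i < l, φ i ∈ E := fun i hi => by simp [φ, hi]
  have hinj : ∀ i < l, ∀ j < l, φ i = φ j → i = j := fun i hi j hj h => by
    simp only [φ, hi, hj, dif_pos] at h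
    simpa using c.symm.injective (Subtype.ext h)
  have hD : ∀ a i : ℕ, ∃ j < l + 1, ∀ ha : a < r, (e ⟨a, ha⟩ * φ i ∈ E → j < l ∧
      φ j = e ⟨a, ha⟩ * φ i) ∧ (e ⟨a, ha⟩ * φ i ∉ E → j = l) := by
    intro a i
    by_cases h1 : ∃ ha : a < r, e ⟨a, ha⟩ * φ i ∈ E
    · obtain ⟨ha, h1⟩ := h1
      exact ⟨c ⟨_, h1⟩, by omega, fun _ => ⟨fun _ => ⟨(c _).2, by simp [φ]⟩, fun h => absurd h1 h⟩⟩
    · exact ⟨l, by omega, fun ha => ⟨fun h => absurd ⟨ha, h⟩ h1, fun _ => rfl⟩⟩
  choose D hD1 hD2 using hD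
  obtain ⟨N, hN1, hN2⟩ := exists_digits (l + 1) (r * l) (fun k => D (k / l) (k % l)) fun _ => hD1 _ _
  have hDv : ∀ a < r, ∀ i < l, Dv l N a i = D a i := by
    intro a ha i hi
    rw [Dv, hN2 _ (by nlinarith), mul_comm, Nat.mul_add_div hl0, Nat.mul_add_mod,
      Nat.div_eq_of_lt hi, Nat.mod_eq_of_lt hi, add_zero]
  have hD3 : ∀ a (ha : a < r), ∀ i < l, Dv l N a i ≠ l → φ (Dv l N a i) = e ⟨a, ha⟩ * φ i := by
    intro a ha i hi hne
    rw [hDv a ha i hi] at hne ⊢
    exact ((hD2 a i ha).1 (by_contra fun h => hne ((hD2 a i ha).2 h))).2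
  refine ⟨N, hN1, ⟨fun a ha i hi j hj => ?_, fun a ha => ?_⟩, φ, fun a => hD3 a a.2⟩
  · by_contra hcon
    push Not at hcon
    obtain ⟨h1, h2, h3⟩ := hcon
    have h4 := hD3 a ha i hi h2
    rw [h1, hD3 a ha j hj (h1 ▸ h2)] at h4
    exact h3 (hinj _ hi _ hj (mul_left_cancel h4).symm)
  · refine lt_of_le_of_lt (Nat.mul_le_mul_left _ (Nat.mul_le_mul_left _ ?_)) (hE ⟨a, ha⟩)
    change ((Finset.range l).filter fun i => Dv l N a i = l).card ≤ _
    rw [← Set.ncard_coe_finset]
    refine Set.ncard_le_ncard_of_injOn (fun i => e ⟨a, ha⟩ * φ i) (fun i hi => ?_)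
      (fun i hi j hj hij => ?_) (hfin.image _).sdiff
    · simp only [Finset.coe_filter, Finset.mem_range, Set.mem_ofPred_eq] at hi
      refine ⟨⟨_, hφ i hi.1, rfl⟩, fun hm => ?_⟩
      have := ((hD2 a i ha).1 hm).1
      rw [hDv a ha i hi.1] at hi
      omega
    · simp only [Finset.coe_filter, Finset.mem_range, Set.mem_ofPred_eq] at hi hj
      exact hinj _ hi.1 _ hj.1 (mul_left_cancel hij)

lemma folner_of_table (e : Fin r → M) {S : Finset M} (he : ∀ s ∈ S, ∃ a, e a = s) {n n' l N : ℕ}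
    (hn : S.card * n ≤ n') (hl0 : 0 < l) (hc : C12 r n' l N) (φ : ℕ → M)
    (hφ : ∀ a : Fin r, ∀ i < l, Dv l N a i ≠ l → φ (Dv l N a i) = e a * φ i) :
    ∃ E, IsFolner S n E ∧ E.ncard ≤ l := by
  obtain ⟨h1, h2⟩ := hc
  have : Nonempty (Fin l) := ⟨⟨0, hl0⟩⟩
  have hlt : ∀ a i, Dv l N a i ≠ l → Dv l N a i < l := fun a i hne =>
    lt_of_le_of_ne (Nat.lt_succ_iff.1 (Nat.mod_lt _ (Nat.succ_pos _))) hne
  simpa using exists_folner_of_approx (I := Fin l) S n (fun i => φ i) fun s hs => by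
    obtain ⟨a, rfl⟩ := he s hs
    refine ⟨fun i => if hi : Dv l N a i < l then ⟨_, hi⟩ else i,
      Finset.univ.filter fun i => Dv l N a i = l, fun i hi j hj hij => ?_, fun i hi => ?_, ?_⟩
    · simp only [Finset.coe_filter, Finset.mem_univ, true_and, Set.mem_compl_iff,
        Set.mem_ofPred_eq] at hi hj
      simp only [hlt _ _ hi, hlt _ _ hj, dif_pos, Fin.mk.injEq] at hij
      rcases h1 a a.2 i i.2 j j.2 with h | h | h
      · exact absurd hij h
      · exact absurd h hi
      · exact Fin.ext h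
    · simp only [Finset.mem_filter, Finset.mem_univ, true_and] at hi
      simp only [hlt _ _ hi, dif_pos]
      exact hφ a i i.2 hi
    · rw [Fintype.card_fin]
      refine lt_of_le_of_lt (Nat.mul_le_mul hn (Nat.mul_le_mul_left _ ?_)) (h2 a a.2)
      change _ ≤ ((Finset.range l).filter fun i => Dv l N a i = l).card
      refine Finset.card_le_card_of_injOn (fun i => (i : ℕ)) (fun i hi => ?_)
        fun i _ j _ => Fin.ext
      simpa using hi

lemma closed_walk (e : Fin r → M) {l N : ℕ} {φ : ℕ → M}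
    (hφ : ∀ a : Fin r, ∀ i < l, Dv l N a i ≠ l → φ (Dv l N a i) = e a * φ i) {i : ℕ}
    {p p' : List ((Fin r × Bool) × ℕ)} (h1 : walk l N i p = walk l N i p')
    (h2 : ¬ walk l N i p = none) : ev e (winv (p.map Prod.fst) ++ p'.map Prod.fst) = 1 := by
  have hedge : ∀ a i j, Edge l N a i j → φ j = val e a * φ i := by
    rintro ⟨a, b⟩ i j ⟨hi, hj, ⟨rfl, h⟩ | ⟨rfl, h⟩⟩
    · have := hφ a i hi (by dsimp only at h; omega)
      rw [h] at this
      exact this
    · have := hφ a j hj (by dsimp only at h; omega)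
      rw [h] at this
      simp [val, this]
  obtain ⟨j, hj⟩ := Option.ne_none_iff_exists'.1 h2
  have h4 := walk_sound e hedge i p j hj
  have h5 := walk_sound e hedge i p' j (h1 ▸ hj)
  rw [ev_append, ev_winv, mul_right_cancel (h4.symm.trans h5), inv_mul_cancel]

lemma ev_map {M0 : Type} [Group M0] (π : M →* M0) (e : Fin r → M) (u : List (Fin r × Bool)) :
    ev (fun a => π (e a)) u = π (ev e u) := by
  induction u with
  | nil => simp [ev]
  | cons a u ih =>
    rw [ev_cons, ev_cons, ih, map_mul]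
    congr 1
    obtain ⟨a, b⟩ := a
    cases b <;> simp [val]

end General

section Level

variable {X : Type} {G : Subgroup (Equiv.Perm (List X))}

lemma length_apply (hG : IsSelfSimilar G) (w : List X) : ∀ g ∈ G, (g w).length = w.length := by
  induction w with
  | nil =>
    intro g hg
    obtain ⟨z, hz⟩ := g.surjective []
    cases z with
    | nil => rw [hz]
    | cons x w =>
      obtain ⟨y, h, -, h1⟩ := hG g hg x
      rw [h1] at hz
      cases hz
  | cons x w ih =>
    intro g hg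
    obtain ⟨y, h, hh, h1⟩ := hG g hg x
    rw [h1, List.length_cons, ih h hh, List.length_cons]

/-- The elements fixing all words of length at most `k`. -/
def St (G : Subgroup (Equiv.Perm (List X))) (k : ℕ) : Subgroup G where
  carrier := {g | ∀ w : List X, w.length ≤ k → g.1 w = w}
  one_mem' := fun _ _ => rfl
  mul_mem' := fun {a b} ha hb w hw => by
    rw [Subgroup.coe_mul, Equiv.Perm.mul_apply, hb w hw, ha w hw]
  inv_mem' := fun {a} ha w hw => by
    rw [Subgroup.coe_inv, Equiv.Perm.inv_eq_iff_eq, ha w hw]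

lemma St_normal (hG : IsSelfSimilar G) (k : ℕ) : (St G k).Normal := ⟨fun a ha g w hw => by
  rw [Subgroup.coe_mul, Subgroup.coe_mul, Equiv.Perm.mul_apply, Equiv.Perm.mul_apply,
    ha _ ((length_apply hG w _ g⁻¹.2).trans_le hw)]
  simp⟩

variable {r : ℕ} {e : Fin r → G} {y : Fin r × Bool → X → X}
  {sec : Fin r × Bool → X → List (Fin r × Bool)}

lemma ev_mem_St (hG : IsSelfSimilar G)
    (h : ∀ a x w, (val e a).1 (x :: w) = y a x :: (ev e (sec a x)).1 w) (k : ℕ) :
    ∀ u : List (Fin r × Bool), ev e u ∈ St G k ↔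
      ∀ (v : List X) x, v.length < k → (stp y sec (secw y sec u v) x).1 = x := by
  induction k with
  | zero =>
    refine fun u => ⟨fun _ v x hv => absurd hv (Nat.not_lt_zero _), fun _ w hw => ?_⟩
    obtain rfl := List.length_eq_zero_iff.1 (Nat.le_zero.1 hw)
    exact List.length_eq_zero_iff.1 (length_apply hG [] _ (ev e u).2)
  | succ k ih =>
    refine fun u => ⟨fun hu v x hv => ?_, fun hu w hw => ?_⟩
    · cases v with
      | nil =>
        have := stp_spec h u x []
        rw [hu [x] (by simp)] at this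
        exact (List.cons.inj this).1.symm
      | cons z v =>
        refine (ih (stp y sec u z).2).1 (fun w hw => ?_) v x (by simpa using hv)
        have := stp_spec h u z w
        rw [hu (z :: w) (by simpa using hw)] at this
        exact (List.cons.inj this).2.symm
    · cases w with
      | nil => exact List.length_eq_zero_iff.1 (length_apply hG [] _ (ev e u).2)
      | cons x w =>
        rw [stp_spec h, (ih (stp y sec u x).2).2 (fun v z hv => hu (x :: v) z (by simpa using hv))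
          w (by simpa using hw)]
        exact congrArg (· :: w) (hu [] x (by simp))

end Level

section Rel

lemma pr_forall_mem {α β : Type} [Primcodable α] [Primcodable β] {f : α → List β}
    {p : α → β → Prop} (hf : Primrec f) (hp : PrimrecRel p) :
    PrimrecPred fun x => ∀ b ∈ f x, p x b :=
  (hp.swap.forall_mem_list.comp hf Primrec.id).of_eq (by simp)

variable {r : ℕ} {X : Type} (y : Fin r × Bool → X → X)
  (sec : Fin r × Bool → X → List (Fin r × Bool))

/-- No table of size below `A` survives the tests in `W`, all of depth below `k`. -/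
def Low (n A k : ℕ) (W : List (Wt r X)) : Prop :=
  ∀ l < A, ∀ N < (l + 1) ^ (r * l), l = 0 ∨ ¬ C12 r n l N ∨
    ∃ t ∈ W, t.2.2.1.length < k ∧ Wit y sec l N t

/-- The words `U` are a potential for the table, as far as the tests in `T` see. -/
def Upp (xs : List X) (l N : ℕ) (U : List (List (Fin r × Bool))) (T : List (List X)) : Prop :=
  ∀ a ∈ List.finRange r, ∀ j < l, Dv l N a j = l ∨ ∀ v ∈ T, ∀ x ∈ xs,
    (stp y sec (secw y sec (winv (U.getD (Dv l N a j) []) ++ (a, true) :: U.getD j []) v) x).1 = x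

/-- `T` contains all words of length below `k`. -/
def Clo (xs : List X) (k : ℕ) (T : List (List X)) : Prop :=
  (∃ w ∈ T, w = []) ∧ ∀ v ∈ T, ∀ x ∈ xs, k ≤ v.length + 1 ∨ ∃ w ∈ T, w = x :: v

lemma Clo.mem {xs : List X} (hxs : ∀ x, x ∈ xs) {k : ℕ} {T : List (List X)} (h : Clo xs k T)
    (v : List X) : v.length < k → v ∈ T := by
  induction v with
  | nil => obtain ⟨w, hw, rfl⟩ := h.1; exact fun _ => hw
  | cons x v ih =>
    intro hv
    rw [List.length_cons] at hv
    rcases h.2 v (ih (by omega)) x (hxs x) with h | ⟨w, hw, rfl⟩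
    · omega
    · exact hw

variable [Finite X] [Primcodable X] {α : Type} [Primcodable α]

lemma pr_Low {n A k : α → ℕ} {W : α → List (Wt r X)} (hn : Primrec n) (hA : Primrec A)
    (hk : Primrec k) (hW : Primrec W) : PrimrecPred fun x => Low y sec (n x) (A x) (k x) (W x) := by
  refine pr_forall_lt hA (pr_forall_lt
    (pr_pow.comp (succ.comp snd) (nat_mul.comp (const r) snd)) ?_)
  exact (Primrec.eq.comp (snd.comp fst) (const 0)).or
    ((pr_C12 r (hn.comp (fst.comp fst)) (snd.comp fst) snd).not.or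
      (pr_exists_mem (hW.comp (fst.comp fst))
        ((nat_lt.comp (list_length.comp (fst.comp (snd.comp (snd.comp snd))))
          (hk.comp (fst.comp (fst.comp fst)))).and
        (pr_Wit y sec (snd.comp (fst.comp fst)) (snd.comp fst) snd))))

lemma pr_Upp (xs : List X) {l N : α → ℕ} {U : α → List (List (Fin r × Bool))}
    {T : α → List (List X)} (hl : Primrec l) (hN : Primrec N) (hU : Primrec U) (hT : Primrec T) :
    PrimrecPred fun x => Upp y sec xs (l x) (N x) (U x) (T x) := by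
  refine pr_forall_mem (const _) (pr_forall_lt (hl.comp fst) ?_)
  have h1 : Primrec fun z : (α × Fin r) × ℕ => Dv (l z.1.1) (N z.1.1) z.1.2 z.2 :=
    pr_Dv (hl.comp (fst.comp fst)) (hN.comp (fst.comp fst)) (fin_val.comp (snd.comp fst)) snd
  have h2 : Primrec fun z : (α × Fin r) × ℕ => winv ((U z.1.1).getD
      (Dv (l z.1.1) (N z.1.1) z.1.2 z.2) []) ++ (z.1.2, true) :: (U z.1.1).getD z.2 [] :=
    list_append.comp (pr_winv.comp ((list_getD []).comp (hU.comp (fst.comp fst)) h1))
      (list_cons.comp ((snd.comp fst).pair (const true))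
        ((list_getD []).comp (hU.comp (fst.comp fst)) snd))
  refine (Primrec.eq.comp h1 (hl.comp (fst.comp fst))).or
    (pr_forall_mem (hT.comp (fst.comp fst)) (pr_forall_mem (const xs) ?_))
  exact Primrec.eq.comp (fst.comp ((pr_stp y sec).comp ((pr_secw y sec).comp
    (h2.comp (fst.comp fst)) (snd.comp fst)) snd)) snd

omit [Finite X] in
lemma pr_Clo (xs : List X) {k : α → ℕ} {T : α → List (List X)} (hk : Primrec k) (hT : Primrec T) :
    PrimrecPred fun x => Clo xs (k x) (T x) := by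
  refine (pr_exists_mem (p := fun _ w => w = []) hT (Primrec.eq.comp snd (const []))).and
    (pr_forall_mem hT (pr_forall_mem (const xs) ?_))
  exact (nat_le.comp (hk.comp (fst.comp fst)) (succ.comp (list_length.comp (snd.comp fst)))).or
    (pr_exists_mem (hT.comp (fst.comp fst))
      (Primrec.eq.comp snd (list_cons.comp (snd.comp fst) (snd.comp (fst.comp fst)))))

end Rel

theorem exists_event {X : Type} [Finite X] (G : Subgroup (Equiv.Perm (List X))) (S : Finset G)
    (hG : IsSelfSimilar G) (hS : Subgroup.closure (S : Set G) = ⊤) {N n' A B : ℕ → ℕ}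
    (hN : Primrec N) (hn' : Primrec n') (hA : Primrec A) (hB : Primrec B) :
    ∃ P : ℕ → Prop, REPred P ∧ ∀ i,
      ((∀ E, IsFolner S (N i) E → A i ≤ E.ncard) →
        (∃ E, IsFolner S (S.card * n' i) E ∧ E.ncard ≤ B i) → P i) ∧
      (P i → ∃ (M0 : Type) (_ : Group M0) (π : G →* M0),
        (∀ L : Set M0, L.Finite → L.Nonempty →
          (∀ s ∈ S, S.card * N i * (2 * bd L (π s)) < L.ncard) → A i ≤ L.ncard) ∧
        ∃ F : Set M0, F.Finite ∧ F.Nonempty ∧ (∀ s ∈ S, n' i * (2 * bd F (π s)) < F.ncard) ∧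
          F.ncard ≤ B i) := by
  classical
  let _ : Primcodable X := Primcodable.ofEquiv _ (Finite.equivFin X)
  let e : Fin S.card → G := fun a => S.equivFin.symm a
  have he : ∀ s ∈ S, ∃ a, e a = s := fun s hs => ⟨S.equivFin ⟨s, hs⟩, by simp [e]⟩
  have he' : ∀ a, e a ∈ S := fun a => (S.equivFin.symm a).2
  have hsurj : ∀ g : G, ∃ u, ev e u = g := by
    intro g
    have hg : g ∈ Subgroup.closure (S : Set G) := hS ▸ Subgroup.mem_top g
    induction hg using Subgroup.closure_induction with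
    | mem s hs => obtain ⟨a, rfl⟩ := he s hs; exact ⟨[(a, true)], by simp [ev, val]⟩
    | one => exact ⟨[], rfl⟩
    | mul _ _ _ _ h1 h2 =>
      obtain ⟨u, rfl⟩ := h1
      obtain ⟨v, rfl⟩ := h2
      exact ⟨u ++ v, ev_append e u v⟩
    | inv _ _ h1 => obtain ⟨u, rfl⟩ := h1; exact ⟨winv u, ev_winv e u⟩
  have h0 : ∀ a x, ∃ y u, ∀ w, (val e a).1 (x :: w) = y :: (ev e u).1 w := by
    intro a x
    obtain ⟨y, g, hg, h⟩ := hG _ (val e a).2 x
    obtain ⟨u, hu⟩ := hsurj ⟨g, hg⟩
    exact ⟨y, u, by rw [hu]; exact h⟩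
  choose y sec h using h0
  have := Fintype.ofFinite X
  let xs : List X := Finset.univ.toList
  have hxs : ∀ x, x ∈ xs := fun x => by simp [xs]
  let R : ℕ → (ℕ × List (Wt S.card X)) × (ℕ × ℕ) × List (List (Fin S.card × Bool)) ×
      List (List X) → Prop := fun i b =>
    Low y sec (S.card * N i) (A i) b.1.1 b.1.2 ∧ (0 < b.2.1.1 ∧ b.2.1.1 ≤ B i) ∧
      C12 S.card (S.card * n' i) b.2.1.1 b.2.1.2 ∧ Upp y sec xs b.2.1.1 b.2.1.2 b.2.2.1 b.2.2.2 ∧
        Clo xs b.1.1 b.2.2.2
  have hR : PrimrecRel R := by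
    have a1 : Primrec fun z : ℕ × (ℕ × List (Wt S.card X)) × (ℕ × ℕ) ×
      List (List (Fin S.card × Bool)) × List (List X) => z.2.2.1.1 :=
      fst.comp (fst.comp (snd.comp snd))
    have a2 : Primrec fun z : ℕ × (ℕ × List (Wt S.card X)) × (ℕ × ℕ) ×
      List (List (Fin S.card × Bool)) × List (List X) => z.2.2.1.2 :=
      snd.comp (fst.comp (snd.comp snd))
    exact (pr_Low y sec (nat_mul.comp (const _) (hN.comp fst)) (hA.comp fst)
      (fst.comp (fst.comp snd)) (snd.comp (fst.comp snd))).and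
      (((nat_lt.comp (const 0) a1).and (nat_le.comp a1 (hB.comp fst))).and
        ((pr_C12 _ (nat_mul.comp (const _) (hn'.comp fst)) a1 a2).and
          ((pr_Upp y sec xs a1 a2 (fst.comp (snd.comp (snd.comp snd)))
            (snd.comp (snd.comp (snd.comp snd)))).and
            (pr_Clo xs (fst.comp (fst.comp snd)) (snd.comp (snd.comp (snd.comp snd)))))))
  refine ⟨fun i => ∃ b, R i b, re_of_exists hR, fun i => ⟨fun h1 ⟨E, hE, h2⟩ => ?_, ?_⟩⟩
  · have hmono : ∀ (l N0 : ℕ) (W W' : List (Wt S.card X)), W ⊆ W' →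
        (l = 0 ∨ ¬ C12 S.card (S.card * N i) l N0 ∨ ∃ t ∈ W, Wit y sec l N0 t) →
        (l = 0 ∨ ¬ C12 S.card (S.card * N i) l N0 ∨ ∃ t ∈ W', Wit y sec l N0 t) :=
      fun l N W W' h => Or.imp_right (Or.imp_right fun ⟨t, h1, h2⟩ => ⟨t, h h1, h2⟩)
    obtain ⟨W, hW⟩ : ∃ W : List (Wt S.card X), ∀ l < A i, ∀ N0 < (l + 1) ^ (S.card * l),
        l = 0 ∨ ¬ C12 S.card (S.card * N i) l N0 ∨ ∃ t ∈ W, Wit y sec l N0 t := by
      refine exists_list_lt (fun l W W' hW H N hN => hmono l N W W' hW (H N hN)) _ fun l hl => ?_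
      refine exists_list_lt (hmono l) _ fun N0 hN0 => ?_
      by_contra hcon
      obtain ⟨E', hE', h3⟩ := folner_of_cert hG h he (n := N i) (l := l) ⟨
        Nat.pos_of_ne_zero fun h0 => hcon ⟨[], Or.inl h0⟩, N0, hN0,
        by_contra fun h0 => hcon ⟨[], Or.inr (Or.inl h0)⟩,
        fun t ht => hcon ⟨[t], Or.inr (Or.inr ⟨t, by simp, ht⟩)⟩⟩
      have := h1 E' hE'
      omega
    obtain ⟨hfin, hne, hE⟩ := isFolner_iff.1 hE
    obtain ⟨N0, -, h3, φ, hφ⟩ := table_of_folner e hfin hne fun a => hE _ (he' a)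
    choose wd hwd using hsurj
    set k := (W.map fun t => t.2.2.1.length).sum + 1 with hk
    have hT := List.finite_length_lt X k
    have hU : ∀ j < E.ncard, ((List.range E.ncard).map fun j => wd (φ j)).getD j [] = wd (φ j) :=
      fun j hj => by simp [List.getD_eq_getElem?_getD, hj]
    refine ⟨((k, W), (E.ncard, N0), (List.range E.ncard).map fun j => wd (φ j), hT.toFinset.toList),
      fun l hl N1 hN1 => ?_, ⟨(Set.ncard_pos hfin).2 hne, h2⟩, h3, fun a _ j hj => ?_,
      ⟨[], by simp [hk], rfl⟩, fun v _ x _ => ?_⟩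
    · refine (hW l hl N1 hN1).imp_right (Or.imp_right fun ⟨t, h4, h5⟩ => ⟨t, h4, ?_, h5⟩)
      exact Nat.lt_succ_of_le (List.single_le_sum (fun _ _ => Nat.zero_le _) _
        (List.mem_map_of_mem h4))
    · refine (em _).imp_right fun h4 v _ x _ => (ev_eq_one_iff hG h _).1 ?_ v x
      have h5 : Dv E.ncard N0 a j < E.ncard :=
        lt_of_le_of_ne (Nat.lt_succ_iff.1 (Nat.mod_lt _ (Nat.succ_pos _))) h4
      dsimp only
      rw [hU _ h5, hU _ hj, ev_append, ev_winv, ev_cons, hwd, hwd, hφ a j hj h4]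
      simp [val]
    · refine (le_or_gt _ _).imp_right fun h4 => ⟨x :: v, ?_, rfl⟩
      simpa using h4
  · rintro ⟨⟨⟨k, W⟩, ⟨l, N0⟩, U, T⟩, h1, ⟨h2, h3⟩, h4, h5, h6⟩
    dsimp only at h1 h2 h3 h4 h5 h6
    have := St_normal hG k
    let π : G →* G ⧸ St G k := QuotientGroup.mk' _
    have hπ : ∀ u, ev (fun a => π (e a)) u = 1 ↔ ∀ (v : List X) x, v.length < k →
        (stp y sec (secw y sec u v) x).1 = x := fun u => by
      rw [ev_map, ← ev_mem_St hG h]
      exact QuotientGroup.eq_one_iff _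
    refine ⟨G ⧸ St G k, inferInstance, π, fun L hfin hne hL => ?_, ?_⟩
    · obtain ⟨N1, h7, h8, φ, hφ⟩ := table_of_folner (fun a => π (e a)) hfin hne
        fun a => hL _ (he' a)
      by_contra hlt
      rcases h1 _ (not_le.1 hlt) N1 h7 with h9 | h9 | ⟨t, -, h9, h10, h11, h12⟩
      · exact ((Set.ncard_pos hfin).2 hne).ne' h9
      · exact h9 h8
      · exact h12 ((hπ _).1 (closed_walk _ hφ h10 h11) _ _ h9)
    · obtain ⟨F, hF, h7⟩ := folner_of_table (fun a => π (e a)) (S := S.image π) (n := n' i)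
        (fun s hs => by
          obtain ⟨s', hs', rfl⟩ := Finset.mem_image.1 hs
          obtain ⟨a, rfl⟩ := he s' hs'
          exact ⟨a, rfl⟩)
        (Nat.mul_le_mul_right _ Finset.card_image_le) h2 h4
        (fun j => ev (fun a => π (e a)) (U.getD j [])) fun a j hj hne => by
          have h8 := (hπ _).2 fun v x hv => (h5 a (List.mem_finRange a) j hj).resolve_left hne v
            (h6.mem hxs v hv) x (hxs x)
          rw [ev_append, ev_winv, ev_cons, inv_mul_eq_one] at h8
          exact h8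
      obtain ⟨hfin, hne, hF⟩ := isFolner_iff.1 hF
      exact ⟨F, hfin, hne, fun s hs => hF _ (Finset.mem_image_of_mem _ hs), h7.trans h3⟩

end Pool.Agent.MP_e6aac2_al.H11S
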