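import Pool.Agent.MP_e6aac2_al.Cert

/-! A universal staircase exponent. -/

namespace Pool.Agent.MP_e6aac2_al.H11S

open Finset Nat.Partrec.Code

def tauA (i : ℕ) : ℕ := 2 ^ 2 ^ i

def tauT (h : ℕ → Bool) (n i : ℕ) : ℕ :=
  tauA i ^ 2 * min (tauA i ^ 2) (n - cond (h i) (tauA i ^ 2) (tauA i ^ 3))

def tauS (h : ℕ → Bool) (n : ℕ) : ℕ := ∑ i ∈ range n, tauT h n i

def tauH (i : ℕ) : Prop := (eval (Denumerable.ofNat Nat.Partrec.Code i.unpair.1) i).Dom

def tauK (k i : ℕ) : Bool := (evaln k (Denumerable.ofNat Nat.Partrec.Code i.unpair.1) i).isSome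

theorem tau_succ (i : ℕ) : tauA (i + 1) = tauA i ^ 2 := by
  unfold tauA
  rw [pow_succ 2 i, pow_mul]

theorem tau_lt (i : ℕ) : i < tauA i :=
  (Nat.lt_two_pow_self).trans Nat.lt_two_pow_self

theorem tau_two (i : ℕ) : 2 ≤ tauA i := by
  have h : 2 ^ 1 ≤ tauA i := Nat.pow_le_pow_right (by norm_num) Nat.one_le_two_pow
  simpa using h

theorem tau_mono {i j : ℕ} (h : i ≤ j) : tauA i ≤ tauA j :=
  Nat.pow_le_pow_right (by norm_num) (Nat.pow_le_pow_right (by norm_num) h)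

theorem tau_cond (b : Bool) (i : ℕ) : tauA i ^ 2 ≤ cond b (tauA i ^ 2) (tauA i ^ 3) ∧
    cond b (tauA i ^ 2) (tauA i ^ 3) ≤ tauA i ^ 3 := by
  have h : tauA i ^ 2 ≤ tauA i ^ 3 :=
    Nat.pow_le_pow_right (by have := tau_two i; omega) (by norm_num)
  cases b
  · exact ⟨h, le_rfl⟩
  · exact ⟨le_rfl, h⟩

theorem tau_zero (h : ℕ → Bool) {n i : ℕ} (hn : n ≤ tauA i ^ 2) : tauT h n i = 0 := by
  unfold tauT
  rw [Nat.sub_eq_zero_of_le (hn.trans (tau_cond _ i).1)]
  simp

theorem tau_le (h : ℕ → Bool) (n i : ℕ) : tauT h n i ≤ tauA i ^ 4 := by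
  unfold tauT
  calc _ ≤ tauA i ^ 2 * tauA i ^ 2 := Nat.mul_le_mul_left _ (min_le_left _ _)
    _ = _ := by ring

theorem tau_monoT (h : ℕ → Bool) {n n' : ℕ} (hn : n ≤ n') (i : ℕ) : tauT h n i ≤ tauT h n' i :=
  Nat.mul_le_mul_left _ (min_le_min le_rfl (Nat.sub_le_sub_right hn _))

theorem tau_monoS (h : ℕ → Bool) : Monotone (tauS h) := fun _ _ hn =>
  (sum_le_sum fun i _ => tau_monoT h hn i).trans (sum_le_sum_of_subset (range_subset_range.2 hn))

theorem tau_step (h : ℕ → Bool) (n i : ℕ) : tauT h (n + 1) i ≤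
    tauT h n i + if tauA i ^ 2 ≤ n ∧ n < tauA (i + 1) ^ 2 then n else 0 := by
  obtain ⟨c1, c2⟩ := tau_cond (h i) i
  have h2 := tau_two i
  have h4 : tauA i ^ 3 + tauA i ^ 2 ≤ tauA (i + 1) ^ 2 := by
    rw [tau_succ]
    have e1 : tauA i ^ 2 ≤ tauA i ^ 3 := c1.trans c2
    have e2 : tauA i ^ 3 * 2 ≤ tauA i ^ 3 * tauA i := Nat.mul_le_mul_left _ h2
    have e3 : (tauA i ^ 2) ^ 2 = tauA i ^ 3 * tauA i := by ring
    omega
  unfold tauT
  generalize cond (h i) (tauA i ^ 2) (tauA i ^ 3) = s at c1 c2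
  generalize tauA i ^ 2 = m at c1 h4 ⊢
  split_ifs with hc
  · have e : min m (n + 1 - s) ≤ min m (n - s) + 1 := by omega
    calc _ ≤ m * (min m (n - s) + 1) := Nat.mul_le_mul_left _ e
      _ = m * min m (n - s) + m := by ring
      _ ≤ _ := Nat.add_le_add_left hc.1 _
  · have e : min m (n + 1 - s) ≤ min m (n - s) := by omega
    exact Nat.mul_le_mul_left _ e

theorem tau_slope (h : ℕ → Bool) (n : ℕ) : tauS h (n + 1) ≤ tauS h n + n := by
  have h0 : tauT h n n = 0 :=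
    tau_zero h ((tau_lt n).le.trans (Nat.le_self_pow (by norm_num) _))
  have h1 : ∑ i ∈ range (n + 1), (if tauA i ^ 2 ≤ n ∧ n < tauA (i + 1) ^ 2 then n else 0) ≤ n := by
    rw [← sum_filter, sum_const, smul_eq_mul]
    have hc : ((range (n + 1)).filter fun i => tauA i ^ 2 ≤ n ∧ n < tauA (i + 1) ^ 2).card ≤ 1 := by
      refine card_le_one.2 fun i hi j hj => ?_
      obtain ⟨-, i1, i2⟩ := mem_filter.1 hi
      obtain ⟨-, j1, j2⟩ := mem_filter.1 hj
      by_contra hne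
      rcases Nat.lt_or_gt_of_ne hne with e | e
      · have := Nat.pow_le_pow_left (tau_mono (Nat.succ_le_of_lt e)) 2
        exact absurd (i2.trans_le (this.trans j1)) (lt_irrefl _)
      · have := Nat.pow_le_pow_left (tau_mono (Nat.succ_le_of_lt e)) 2
        exact absurd (j2.trans_le (this.trans i1)) (lt_irrefl _)
    calc _ ≤ 1 * n := Nat.mul_le_mul_right _ hc
      _ = n := one_mul n
  have h2 := sum_le_sum fun i (_ : i ∈ range (n + 1)) => tau_step h n i
  rw [sum_add_distrib, sum_range_succ (fun i => tauT h n i), h0] at h2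
  unfold tauS
  omega

theorem tau_W (i : ℕ) : ∑ j ∈ range i, tauA j ^ 4 ≤ 2 * tauA i ^ 2 := by
  induction i with
  | zero => simp
  | succ i ih =>
    rw [sum_range_succ, tau_succ]
    have h2 := tau_two i
    have e1 : 2 ≤ tauA i ^ 2 := h2.trans (Nat.le_self_pow (by norm_num) _)
    have e2 : 2 * tauA i ^ 2 ≤ tauA i ^ 2 * tauA i ^ 2 := Nat.mul_le_mul_right _ e1
    have e3 : (tauA i ^ 2) ^ 2 = tauA i ^ 2 * tauA i ^ 2 := by ring
    have e4 : tauA i ^ 4 = tauA i ^ 2 * tauA i ^ 2 := by ring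
    omega

theorem tau_up (h : ℕ → Bool) {n i : ℕ} (hn : n ≤ tauA i ^ 4) :
    tauS h n ≤ 2 * tauA i ^ 2 + tauT h n i := by
  have h1 : tauS h n ≤ ∑ j ∈ range (i + 1), tauT h n j := by
    refine sum_le_sum_of_ne_zero fun j _ hj => mem_range.2 ?_
    by_contra hlt
    refine hj (tau_zero h (hn.trans ?_))
    have := Nat.pow_le_pow_left (tau_mono (not_lt.1 hlt)) 2
    rw [tau_succ, ← pow_mul] at this
    exact this
  rw [sum_range_succ] at h1
  have h2 : ∑ j ∈ range i, tauT h n j ≤ ∑ j ∈ range i, tauA j ^ 4 :=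
    sum_le_sum fun j _ => tau_le h n j
  have h3 := tau_W i
  omega

theorem tau_low (h : ℕ → Bool) {n i : ℕ} (hn : i < n) : tauT h n i ≤ tauS h n :=
  single_le_sum (f := fun j => tauT h n j) (fun _ _ => Nat.zero_le _) (mem_range.2 hn)

theorem tau_cmp {h h' : ℕ → Bool} {n : ℕ} (hh : ∀ i < n, h i = true → h' i = true) :
    tauS h n ≤ tauS h' n := by
  refine sum_le_sum fun i hi => Nat.mul_le_mul_left _ (min_le_min le_rfl (Nat.sub_le_sub_left ?_ _))
  cases e : h i
  · exact (tau_cond _ i).2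
  · rw [hh i (mem_range.1 hi) e]

theorem tau_sound {k i : ℕ} (h : tauK k i = true) : tauH i := by
  obtain ⟨x, hx⟩ := Option.isSome_iff_exists.1 h
  exact Part.dom_iff_mem.2 ⟨x, evaln_sound hx⟩

theorem tau_complete (n : ℕ) : ∃ k, ∀ i < n, tauH i → ∀ k', k ≤ k' → tauK k' i = true := by
  induction n with
  | zero => exact ⟨0, fun i hi => absurd hi (Nat.not_lt_zero i)⟩
  | succ n ih =>
    obtain ⟨k, hk⟩ := ih
    by_cases hn : tauH n
    · obtain ⟨x, hx⟩ := Part.dom_iff_mem.1 hn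
      obtain ⟨k1, h1⟩ := evaln_complete.1 hx
      refine ⟨max k k1, fun i hi hH k' hk' => ?_⟩
      rcases Nat.lt_succ_iff_lt_or_eq.1 hi with e | e
      · exact hk i e hH k' ((le_max_left _ _).trans hk')
      · rw [e]
        exact Option.isSome_iff_exists.2 ⟨x, evaln_mono ((le_max_right _ _).trans hk') h1⟩
    · refine ⟨k, fun i hi hH => ?_⟩
      rcases Nat.lt_succ_iff_lt_or_eq.1 hi with e | e
      · exact hk i e hH
      · exact absurd (e ▸ hH) hn

theorem tau_prA : Primrec tauA :=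
  pr_pow.comp (Primrec.const 2) (pr_pow.comp (Primrec.const 2) Primrec.id)

theorem tau_prK : Primrec₂ tauK :=
  Primrec.option_isSome.comp (primrec_evaln.comp (Primrec.pair (Primrec.pair Primrec.fst
    ((Primrec.ofNat Nat.Partrec.Code).comp (Primrec.fst.comp (Primrec.unpair.comp Primrec.snd))))
    Primrec.snd))

theorem tau_prT {α : Type} [Primcodable α] {k n i : α → ℕ} (hk : Primrec k) (hn : Primrec n)
    (hi : Primrec i) : Primrec fun a => tauT (tauK (k a)) (n a) (i a) := by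
  have h2 : Primrec fun a => tauA (i a) ^ 2 := pr_pow.comp (tau_prA.comp hi) (Primrec.const 2)
  have h3 : Primrec fun a => tauA (i a) ^ 3 := pr_pow.comp (tau_prA.comp hi) (Primrec.const 3)
  exact Primrec.nat_mul.comp h2 (Primrec.nat_min.comp h2
    (Primrec.nat_sub.comp hn (Primrec.cond (tau_prK.comp hk hi) h2 h3)))

theorem tau_prS {α : Type} [Primcodable α] {k n : α → ℕ} (hk : Primrec k) (hn : Primrec n) :
    Primrec fun a => tauS (tauK (k a)) (n a) := by
  have h1 : Primrec₂ fun (a : α) (q : ℕ × ℕ) => q.2 + tauT (tauK (k a)) (n a) q.1 :=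
    Primrec.nat_add.comp (Primrec.snd.comp Primrec.snd)
      (tau_prT (hk.comp Primrec.fst) (hn.comp Primrec.fst) (Primrec.fst.comp Primrec.snd))
  refine (Primrec.nat_rec' hn (Primrec.const 0) h1).of_eq fun a => ?_
  unfold tauS
  generalize tauT (tauK (k a)) (n a) = f
  induction n a with
  | zero => rfl
  | succ j ih => rw [sum_range_succ, ← ih]

theorem exists_tau_univ : ∃ (τ : ℕ → ℕ) (H : ℕ → Prop), τ 0 = 0 ∧ Monotone τ ∧
    (∀ n, τ (n + 1) ≤ τ n + n) ∧ LowerSemicomputable (fun n => 2 ^ (n + τ n)) ∧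
    (∀ P : ℕ → Prop, REPred P → ∀ B, ∃ i, B ≤ i ∧ (H i ↔ P i)) ∧
    ∀ i a : ℕ, a = 2 ^ 2 ^ i → τ (a ^ 4) ≤ a ^ 4 + 2 * a ^ 2 ∧ (H i → a ^ 4 ≤ τ (2 * a ^ 2)) ∧
      (¬ H i → τ (a ^ 3) ≤ 2 * a ^ 2 ∧ a ^ 4 ≤ τ (2 * a ^ 3)) := by
  classical
  refine ⟨tauS fun i => decide (tauH i), tauH, rfl, tau_monoS _, tau_slope _, ?_, ?_, ?_⟩
  · have h1 : PrimrecRel fun (p : ℕ × ℕ) (k : ℕ) => p.2 ≤ 2 ^ (p.1 + tauS (tauK k) p.1) :=
      Primrec.nat_le.comp (Primrec.snd.comp Primrec.fst) (pr_pow.comp (Primrec.const 2)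
        (Primrec.nat_add.comp (Primrec.fst.comp Primrec.fst)
          (tau_prS Primrec.snd (Primrec.fst.comp Primrec.fst))))
    refine (re_of_exists h1).of_eq fun p => ⟨?_, fun hp => ?_⟩
    · rintro ⟨k, hk⟩
      exact hk.trans (Nat.pow_le_pow_right (by norm_num) (Nat.add_le_add_left
        (tau_cmp fun i _ hi => decide_eq_true (tau_sound hi)) _))
    · obtain ⟨k, hk⟩ := tau_complete p.1
      exact ⟨k, hp.trans (Nat.pow_le_pow_right (by norm_num) (Nat.add_le_add_left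
        (tau_cmp fun i hi e => hk i hi (of_decide_eq_true e) k le_rfl) _))⟩
  · intro P hP B
    have h1 := Partrec.map hP (Computable.const (0 : ℕ)).to₂
    obtain ⟨c, hc⟩ := exists_code.1 (Partrec.nat_iff.1 h1)
    refine ⟨Nat.pair (Encodable.encode c) B, Nat.right_le_pair _ _, ?_⟩
    unfold tauH
    rw [Nat.unpair_pair, Denumerable.ofNat_encode, hc]
    exact ⟨fun h => h.fst, fun h => ⟨h, trivial⟩⟩
  · intro i a ha
    have ha' : a = tauA i := ha
    have h2 := tau_two i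
    have hl := tau_lt i
    have p2 : tauA i ≤ tauA i ^ 2 := Nat.le_self_pow (by norm_num) _
    have p3 : tauA i ^ 2 ≤ tauA i ^ 3 := Nat.pow_le_pow_right (by omega) (by norm_num)
    have p4 : tauA i ^ 3 ≤ tauA i ^ 4 := Nat.pow_le_pow_right (by omega) (by norm_num)
    have e4 : tauA i ^ 2 * tauA i ^ 2 = tauA i ^ 4 := by ring
    rw [ha']
    refine ⟨?_, fun hH => ?_, fun hH => ⟨?_, ?_⟩⟩
    · have h1 := tau_up (fun i => decide (tauH i)) (le_refl (tauA i ^ 4))
      have h3 := tau_le (fun i => decide (tauH i)) (tauA i ^ 4) i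
      omega
    · refine le_trans (le_of_eq ?_) (tau_low _ (i := i) (by omega))
      unfold tauT
      beta_reduce
      rw [decide_eq_true hH, cond_true, min_eq_left (by omega), e4]
    · refine (tau_up _ p4).trans (le_of_eq ?_)
      unfold tauT
      beta_reduce
      rw [decide_eq_false hH, cond_false, Nat.sub_self]
      simp
    · refine le_trans (le_of_eq ?_) (tau_low _ (i := i) (by omega))
      unfold tauT
      beta_reduce
      rw [decide_eq_false hH, cond_false, min_eq_left (by omega), e4]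

end Pool.Agent.MP_e6aac2_al.H11S
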