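import Pool.Agent.MP_e6aac2_al.H11S.Ineq
import Pool.Agent.MP_e6aac2_al.H11S.Tau
import Pool.Agent.MP_e6aac2_al.H11S.Event

namespace Pool.Agent.MP_e6aac2_al.H11S

open Finset

lemma diag_anti {M : Type} [Group M] {S : Finset M} {m n : ℕ} {E : Set M} (h : IsFolner S n E)
    (hmn : m ≤ n) : IsFolner S m E :=
  ⟨h.1, h.2.1, fun s hs => lt_of_le_of_lt (Nat.mul_le_mul_right _ hmn) (h.2.2 s hs)⟩

lemma diag_low {a C x e : ℕ} (hC : C ≤ a) (hx : a ^ 4 ≤ x) (h : 2 ^ x ≤ C * e) :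
    2 ^ (a ^ 4 - a) ≤ e := by
  have h1 : a ≤ a ^ 4 := Nat.le_self_pow (by norm_num) a
  have h2 : C ≤ 2 ^ a := hC.trans Nat.lt_two_pow_self.le
  have h3 : 2 ^ a * 2 ^ (a ^ 4 - a) ≤ 2 ^ a * e := by
    rw [← pow_add, Nat.add_sub_cancel' h1]
    exact (Nat.pow_le_pow_right (by norm_num) hx).trans (h.trans (Nat.mul_le_mul_right _ h2))
  exact Nat.le_of_mul_le_mul_left h3 (by positivity)

lemma diag_num {a K : ℕ} (ha : K + 5 ≤ a)
    (h : (a ^ 4 - a) + (a ^ 4 - a) ≤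
      2 + ((a + a ^ 3 + 2 * a ^ 2) + (a + (K * a ^ 3 + (a ^ 4 + 2 * a ^ 2))))) : False := by
  have h1 : a ≤ a ^ 4 := Nat.le_self_pow (by norm_num) a
  have h2 : (K + 5) * a ^ 3 ≤ a ^ 4 := by
    rw [show a ^ 4 = a * a ^ 3 by ring]; exact Nat.mul_le_mul_right _ ha
  have h3 : 5 * a ^ 2 ≤ a ^ 3 := by
    rw [show a ^ 3 = a * a ^ 2 by ring]; exact Nat.mul_le_mul_right _ (by omega)
  have h4 : 5 * a ≤ a ^ 2 := by
    rw [show a ^ 2 = a * a by ring]; exact Nat.mul_le_mul_right _ (by omega)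
  rw [add_mul] at h2
  omega

theorem exists_tau : ∃ τ : ℕ → ℕ, τ 0 = 0 ∧ Monotone τ ∧ (∀ n, τ (n + 1) ≤ τ n + n) ∧
    LowerSemicomputable (fun n => 2 ^ (n + τ n)) ∧
    ¬ IsSelfSimilarFolnerType (fun n => 2 ^ (n + τ n)) := by
  obtain ⟨τ, H, h0, hm, hτ, hl, hdiag, hnum⟩ := exists_tau_univ
  refine ⟨τ, h0, hm, hτ, hl, ?_⟩
  rintro ⟨X, _, G, S, hG, hS, hF, ⟨C1, hC1, g1⟩, ⟨C2, hC2, g2⟩⟩
  obtain ⟨C, hC1C, hC2C⟩ : ∃ C, C1 ≤ C ∧ C2 ≤ C := ⟨C1 + C2, by omega, by omega⟩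
  have hC : 1 ≤ C := by omega
  have lo : ∀ n, 1 ≤ n → ∀ E, IsFolner S (C * n) E → 2 ^ (n + τ n) ≤ C * E.ncard := by
    intro n hn E hE
    exact (g1 n hn).trans (Nat.mul_le_mul hC1C
      (folner_le (diag_anti hE (Nat.mul_le_mul_right _ hC1C))))
  have up : ∀ n, 1 ≤ n → ∃ E, IsFolner S n E ∧ E.ncard ≤ C * 2 ^ (C * n + τ (C * n)) := by
    intro n hn
    obtain ⟨E, hE, hc⟩ := folner_spec (hF n)
    refine ⟨E, hE, hc ▸ (g2 n hn).trans (Nat.mul_le_mul hC2C ?_)⟩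
    have h1 : C2 * n ≤ C * n := Nat.mul_le_mul_right _ hC2C
    exact Nat.pow_le_pow_right (by norm_num) (add_le_add h1 (hm h1))
  obtain ⟨r, hr⟩ : ∃ r, r = S.card := ⟨_, rfl⟩
  have hpow : Primrec₂ fun a b : ℕ => a ^ b := Primrec₂.unpaired'.1 Nat.Primrec.pow
  have ha : Primrec fun i : ℕ => 2 ^ 2 ^ i :=
    hpow.comp (Primrec.const 2) (hpow.comp (Primrec.const 2) Primrec.id)
  have hak : ∀ k : ℕ, Primrec fun i : ℕ => (2 ^ 2 ^ i) ^ k := fun k =>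
    hpow.comp ha (Primrec.const k)
  obtain ⟨P, hP, hev⟩ := exists_event G S hG hS
    (N := fun i => C * (2 * (2 ^ 2 ^ i) ^ 3)) (n' := fun i => 8 * (r + 1) * C * (2 ^ 2 ^ i) ^ 2)
    (A := fun i => 2 ^ ((2 ^ 2 ^ i) ^ 4 - 2 ^ 2 ^ i))
    (B := fun i => 2 ^ (2 ^ 2 ^ i + (2 ^ 2 ^ i) ^ 3 + 2 * (2 ^ 2 ^ i) ^ 2))
    (Primrec.nat_mul.comp (Primrec.const _) (Primrec.nat_mul.comp (Primrec.const _) (hak 3)))
    (Primrec.nat_mul.comp (Primrec.const _) (hak 2))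
    (hpow.comp (Primrec.const 2) (Primrec.nat_sub.comp (hak 4) ha))
    (hpow.comp (Primrec.const 2) (Primrec.nat_add.comp (Primrec.nat_add.comp ha (hak 3))
      (Primrec.nat_mul.comp (Primrec.const _) (hak 2))))
  obtain ⟨K, hK⟩ : ∃ K, K = 8 * (r + 1) ^ 2 * C ^ 2 := ⟨_, rfl⟩
  obtain ⟨i, hi, hHP⟩ := hdiag P hP (K + 5)
  obtain ⟨e1, e2⟩ := hev i
  obtain ⟨a, ha'⟩ : ∃ a, a = 2 ^ 2 ^ i := ⟨_, rfl⟩
  obtain ⟨n1, n2, n3⟩ := hnum i a ha'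
  have hKa : K + 5 ≤ a := by
    have h1 : i < 2 ^ i := Nat.lt_two_pow_self
    have h2 : 2 ^ i < 2 ^ 2 ^ i := Nat.lt_two_pow_self
    omega
  simp only [← ha', ← hr] at e1 e2
  have ha1 : 1 ≤ a := by omega
  have hCK : C ≤ K := by
    rw [hK]
    calc C ≤ C ^ 2 := Nat.le_self_pow (by norm_num) C
      _ ≤ _ := Nat.le_mul_of_pos_left _ (by positivity)
  have hCa : C ≤ a := by omega
  have hC2a : C ≤ 2 ^ a := hCa.trans Nat.lt_two_pow_self.le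
  by_cases hH : H i
  · obtain ⟨M0, _, π, hA, F, hFf, hFn, hFF, hFB⟩ := e2 (hHP.1 hH)
    obtain ⟨E, hE, hEc⟩ := up (8 * (r + 1) ^ 2 * C * a ^ 3) (Nat.one_le_iff_ne_zero.2 (by positivity))
    have hCn : C * (8 * (r + 1) ^ 2 * C * a ^ 3) = K * a ^ 3 := by rw [hK]; ring
    have hKa4 : K * a ^ 3 ≤ a ^ 4 := by
      rw [show a ^ 4 = a * a ^ 3 by ring]; exact Nat.mul_le_mul_right _ (by omega)
    rw [hCn] at hEc
    have hq := quot_ineq π S (N := r * (C * (2 * a ^ 3))) (N1 := C * (2 * a ^ 2))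
      (A := 2 ^ (a ^ 4 - a)) (A1 := 2 ^ (a ^ 4 - a)) hE hFf hFn hFF
      (by rw [← hr]; nlinarith [Nat.zero_le (C * a ^ 2)])
      (by
        have h1 : a ^ 2 ≤ a ^ 3 := Nat.pow_le_pow_right ha1 (by norm_num)
        have h2 : r + 1 ≤ (r + 1) ^ 2 := Nat.le_self_pow (by norm_num) _
        exact Nat.mul_le_mul (Nat.mul_le_mul_right _ (Nat.mul_le_mul_left _ h2)) h1)
      (by rw [← hr]; nlinarith [Nat.zero_le (C * a ^ 3), Nat.zero_le (r * (C * a ^ 3))])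
      hA
      (fun E' hE' => diag_low hCa ((n2 hH).trans (Nat.le_add_left _ _))
        (lo (2 * a ^ 2) (Nat.one_le_iff_ne_zero.2 (by positivity)) E' hE'))
    have hE2 : E.ncard ≤ 2 ^ (a + (K * a ^ 3 + (a ^ 4 + 2 * a ^ 2))) := by
      rw [pow_add]
      exact hEc.trans (Nat.mul_le_mul hC2a (Nat.pow_le_pow_right (by norm_num)
        (Nat.add_le_add_left ((hm hKa4).trans n1) _)))
    refine diag_num hKa ((Nat.pow_le_pow_iff_right (a := 2) (by norm_num)).1 ?_)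
    rw [pow_add, pow_add 2 2, pow_add 2 (a + a ^ 3 + 2 * a ^ 2)]
    exact hq.trans (Nat.mul_le_mul (by norm_num) (Nat.mul_le_mul hFB hE2))
  · obtain ⟨n4, n5⟩ := n3 hH
    refine hH (hHP.2 (e1 (fun E hE => diag_low hCa (n5.trans (Nat.le_add_left _ _))
      (lo (2 * a ^ 3) (Nat.one_le_iff_ne_zero.2 (by positivity)) E hE)) ?_))
    obtain ⟨E, hE, hEc⟩ := up ((r + 1) * (8 * (r + 1) * C * a ^ 2))
      (Nat.one_le_iff_ne_zero.2 (by positivity))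
    refine ⟨E, diag_anti hE (Nat.mul_le_mul_right _ (Nat.le_succ r)), hEc.trans ?_⟩
    have hCn : C * ((r + 1) * (8 * (r + 1) * C * a ^ 2)) = K * a ^ 2 := by rw [hK]; ring
    have hKa3 : K * a ^ 2 ≤ a ^ 3 := by
      rw [show a ^ 3 = a * a ^ 2 by ring]; exact Nat.mul_le_mul_right _ (by omega)
    rw [hCn, add_assoc, pow_add 2 a]
    exact Nat.mul_le_mul hC2a (Nat.pow_le_pow_right (by norm_num)
      (add_le_add hKa3 ((hm hKa3).trans n4)))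

end Pool.Agent.MP_e6aac2_al.H11S
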