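import Pool.Agent.MP_e6aac2_al.Mg.Coarea

namespace Pool.Agent.MP_e6aac2_al.H11S

open Finset

section

variable {K U V : Type} [AddCommGroup K] [AddCommGroup U] [AddCommGroup V]
  [Fintype K] [Fintype U] [Fintype V] [DecidableEq K]

omit [Fintype U] [Fintype V] [AddCommGroup U] [AddCommGroup V] in
theorem gap_four (A : Finset K) (s : K) :
    (Fintype.card K : ℂ) * ((A.filter fun a => a + s ∈ A).card : ℂ) =
      ∑ ψ : AddChar K ℂ, ψ s * (Complex.normSq (∑ a ∈ A, ψ a) : ℂ) := by
  have h1 : ∀ ψ : AddChar K ℂ, ψ s * (Complex.normSq (∑ a ∈ A, ψ a) : ℂ) =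
      ∑ a ∈ A, ∑ b ∈ A, ψ (a + s - b) := fun ψ => by
    rw [← Complex.mul_conj, map_sum, sum_mul_sum, mul_sum]
    refine sum_congr rfl fun a _ => ?_
    rw [mul_sum]
    refine sum_congr rfl fun b _ => ?_
    rw [sub_eq_add_neg, AddChar.map_add_eq_mul, AddChar.map_add_eq_mul, AddChar.map_neg_eq_conj]
    ring
  rw [sum_congr rfl fun ψ _ => h1 ψ, sum_comm, card_filter, Nat.cast_sum, mul_sum]
  refine sum_congr rfl fun a _ => ?_
  rw [sum_comm]
  simp only [AddChar.sum_apply_eq_ite, sub_eq_zero]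
  rw [sum_ite_eq]
  split_ifs <;> simp

omit [Fintype K] [DecidableEq K] in
theorem gap_weight (β : U →+ V →+ K)
    (hβ : AddSubgroup.closure (Set.range fun p : U × V => β p.1 p.2) = ⊤) (ψ : AddChar K ℂ) :
    ∃ n : ℕ, ∑ p : U × V, ψ (β p.1 p.2) = n ∧ n ≤ Fintype.card U * Fintype.card V ∧
      (ψ ≠ 0 → 2 * n ≤ Fintype.card U * Fintype.card V) := by
  classical
  let H : AddSubgroup U :=
    { carrier := {u | ψ.compAddMonoidHom (β u) = 0}
      zero_mem' := by
        ext v
        simp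
      add_mem' := fun {a b} ha hb => by
        ext v
        have h1 := DFunLike.congr_fun ha v
        have h2 := DFunLike.congr_fun hb v
        simp only [AddChar.compAddMonoidHom_apply, AddChar.zero_apply] at h1 h2 ⊢
        rw [map_add, AddMonoidHom.add_apply, AddChar.map_add_eq_mul, h1, h2, one_mul]
      neg_mem' := fun {a} ha => by
        ext v
        have h1 := DFunLike.congr_fun ha (-v)
        simp only [AddChar.compAddMonoidHom_apply, AddChar.zero_apply] at h1 ⊢
        rw [map_neg, AddMonoidHom.neg_apply, ← map_neg, h1] }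
  have hc : Nat.card H = (univ.filter fun u => ψ.compAddMonoidHom (β u) = 0).card := by
    rw [Nat.card_eq_fintype_card, Fintype.card_subtype]
    rfl
  refine ⟨Nat.card H * Fintype.card V, ?_, Nat.mul_le_mul_right _ ?_, fun h0 => ?_⟩
  · rw [Fintype.sum_prod_type, hc, card_filter]
    push_cast
    rw [sum_mul]
    refine sum_congr rfl fun u _ => ?_
    have := AddChar.sum_eq_ite (ψ.compAddMonoidHom (β u))
    simp only [AddChar.compAddMonoidHom_apply] at this
    rw [this]
    split_ifs <;> simp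
  · rw [hc]
    exact card_le_univ _
  · have h1 : H.index ≠ 1 := fun h => h0 (by
      rw [AddSubgroup.index_eq_one] at h
      ext k
      have hk : k ∈ AddSubgroup.closure (Set.range fun p : U × V => β p.1 p.2) := hβ ▸ trivial
      rw [AddChar.zero_apply]
      induction hk using AddSubgroup.closure_induction with
      | mem x hx =>
        obtain ⟨p, rfl⟩ := hx
        have h2 : p.1 ∈ H := h ▸ trivial
        exact DFunLike.congr_fun h2 p.2
      | zero => simp
      | add x y _ _ hx hy => rw [AddChar.map_add_eq_mul, hx, hy, one_mul]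
      | neg x _ hx => rw [AddChar.map_neg_eq_inv, hx, inv_one])
    have h2 : H.index ≠ 0 := AddSubgroup.index_ne_zero_of_finite
    have h3 := H.card_mul_index
    rw [Nat.card_eq_fintype_card (α := U)] at h3
    rw [← mul_assoc, ← h3, mul_comm 2]
    exact Nat.mul_le_mul_right _ (Nat.mul_le_mul_left _ (by omega))

theorem gap_count (β : U →+ V →+ K)
    (hβ : AddSubgroup.closure (Set.range fun p : U × V => β p.1 p.2) = ⊤) (A : Finset K)
    (hA : 2 * A.card ≤ Fintype.card K) :
    4 * ∑ p : U × V, (A.filter fun a => a + β p.1 p.2 ∈ A).card ≤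
      3 * (Fintype.card U * Fintype.card V) * A.card := by
  classical
  choose n hn hn1 hn2 using gap_weight β hβ
  obtain ⟨F, hF⟩ : ∃ F : AddChar K ℂ → ℝ, ∀ ψ, F ψ = Complex.normSq (∑ a ∈ A, ψ a) :=
    ⟨_, fun _ => rfl⟩
  have hF0 : ∀ ψ, 0 ≤ F ψ := fun ψ => hF ψ ▸ Complex.normSq_nonneg _
  have h1 : (Fintype.card K : ℝ) * A.card = ∑ ψ, F ψ := by
    have := gap_four A 0
    simp only [add_zero, filter_mem_eq_inter, inter_self, AddChar.map_zero_eq_one, one_mul,
      ← hF] at this
    exact_mod_cast this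
  have h2 : (Fintype.card K : ℝ) * ((∑ p : U × V,
      (A.filter fun a => a + β p.1 p.2 ∈ A).card : ℕ) : ℝ) = ∑ ψ, n ψ * F ψ := by
    have : (Fintype.card K : ℂ) * ((∑ p : U × V,
        (A.filter fun a => a + β p.1 p.2 ∈ A).card : ℕ) : ℂ) = ∑ ψ, (n ψ : ℂ) * (F ψ : ℂ) := by
      rw [Nat.cast_sum, mul_sum, sum_congr rfl fun p _ => gap_four A (β p.1 p.2), sum_comm]
      refine sum_congr rfl fun ψ _ => ?_
      rw [← sum_mul, hn, hF]
    exact_mod_cast this
  have h3 : F 0 = (A.card : ℝ) ^ 2 := by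
    rw [hF]
    simp [sq]
  obtain ⟨W, hW⟩ : ∃ W : ℝ, W = ((Fintype.card U * Fintype.card V : ℕ) : ℝ) := ⟨_, rfl⟩
  have h4 : ∑ ψ, n ψ * F ψ ≤ ∑ ψ, (W / 2 * F ψ + if ψ = 0 then W / 2 * F ψ else 0) := by
    refine sum_le_sum fun ψ _ => ?_
    split_ifs with h
    · have : (n ψ : ℝ) ≤ W := by rw [hW]; exact_mod_cast hn1 ψ
      nlinarith only [this, hF0 ψ]
    · have : 2 * (n ψ : ℝ) ≤ W := by rw [hW]; exact_mod_cast hn2 ψ h
      nlinarith only [this, hF0 ψ]
  rw [sum_add_distrib, ← mul_sum, sum_ite_eq' univ (0 : AddChar K ℂ), if_pos (mem_univ _), ← h1,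
    h3, ← h2] at h4
  have hK : (0 : ℝ) < Fintype.card K := by exact_mod_cast Fintype.card_pos
  have hA' : 2 * (A.card : ℝ) ≤ Fintype.card K := by exact_mod_cast hA
  have hW0 : 0 ≤ W := hW ▸ Nat.cast_nonneg _
  have h5 : 0 ≤ W * A.card := mul_nonneg hW0 (Nat.cast_nonneg _)
  have h6 : (Fintype.card K : ℝ) * (4 * ((∑ p : U × V,
      (A.filter fun a => a + β p.1 p.2 ∈ A).card : ℕ) : ℝ)) ≤
      Fintype.card K * (3 * W * A.card) := by
    nlinarith only [h4, mul_le_mul_of_nonneg_left hA' h5]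
  have h7 := le_of_mul_le_mul_left h6 hK
  rw [hW] at h7
  exact_mod_cast h7

end

theorem card_lt_of_gap {K U V M : Type} [AddCommGroup K] [AddCommGroup U] [AddCommGroup V]
    [Finite K] [Finite U] [Finite V] [Group M] (β : U →+ V →+ K)
    (hβ : AddSubgroup.closure (Set.range fun p : U × V => β p.1 p.2) = ⊤)
    (ι : K → M) (hι : ∀ x y, ι (x + y) = ι x * ι y) (hinj : Function.Injective ι)
    {E : Set M} (hE : E.Finite) (h : ∀ u v, 4 * bd E (ι (β u v)) < E.ncard) :
    Nat.card K < 2 * E.ncard := by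
  classical
  have := Fintype.ofFinite K
  have := Fintype.ofFinite U
  have := Fintype.ofFinite V
  obtain ⟨E, rfl⟩ := hE.exists_finset_coe
  rw [Set.ncard_coe_finset] at h ⊢
  rw [Nat.card_eq_fintype_card]
  by_contra hlt
  obtain ⟨Y, hY⟩ : ∃ Y : Finset M, Y = (univ ×ˢ E).image fun p : K × M => (ι p.1)⁻¹ * p.2 :=
    ⟨_, rfl⟩
  have hcount : ∀ Z ⊆ E, ∑ y ∈ Y, (univ.filter fun x : K => ι x * y ∈ Z).card =
      Fintype.card K * Z.card := fun Z hZ => by
    simp only [card_filter]
    rw [sum_comm]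
    refine (sum_congr rfl fun x _ => ?_).trans (by rw [sum_const, card_univ, smul_eq_mul])
    rw [← card_filter]
    refine card_bij (fun y _ => ι x * y) (fun y hy => (mem_filter.1 hy).2)
      (fun y _ y' _ e => mul_left_cancel e) fun z hz => ⟨(ι x)⁻¹ * z, mem_filter.2 ⟨?_, ?_⟩, ?_⟩
    · rw [hY]
      exact mem_image.2 ⟨(x, z), mem_product.2 ⟨mem_univ _, hZ hz⟩, rfl⟩
    · simpa using hz
    · simp
  have hbd : ∀ g : M, (E.filter fun z => g * z ∈ E).card + bd (E : Set M) g = E.card := fun g => by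
    have h1 : bd (E : Set M) g = (E.filter fun z => ¬g * z ∈ E).card := by
      rw [bd, ← Set.ncard_coe_finset, ← ncard_image_mul (((E.filter fun z => ¬g * z ∈ E) :
        Finset M) : Set M) g]
      congr 1
      ext z
      simp only [Set.mem_sdiff, Set.mem_image, mem_coe, mem_filter]
      constructor
      · rintro ⟨⟨x, hx, rfl⟩, hn⟩
        exact ⟨x, ⟨hx, hn⟩, rfl⟩
      · rintro ⟨x, ⟨hx, hn⟩, rfl⟩
        exact ⟨⟨x, hx, rfl⟩, hn⟩
    rw [h1, card_filter_add_card_filter_not]
  have hy : ∀ y ∈ Y, 4 * ∑ p : U × V, (univ.filter fun x : K =>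
      ι x * y ∈ E.filter fun z => ι (β p.1 p.2) * z ∈ E).card ≤
      3 * (Fintype.card U * Fintype.card V) * (univ.filter fun x : K => ι x * y ∈ E).card :=
    fun y _ => by
      refine le_of_eq_of_le ?_ (gap_count β hβ (univ.filter fun x : K => ι x * y ∈ E) ?_)
      · congr 1
        refine sum_congr rfl fun p _ => ?_
        congr 1
        ext x
        simp only [mem_filter, mem_univ, true_and]
        rw [add_comm, hι, mul_assoc]
      · refine (Nat.mul_le_mul_left 2 ?_).trans (not_lt.1 hlt)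
        exact card_le_card_of_injOn (fun x => ι x * y) (fun x hx => (mem_filter.1 hx).2)
          fun x _ x' _ e => hinj (mul_right_cancel e)
  have h1 := sum_le_sum hy
  rw [← mul_sum, ← mul_sum, sum_comm, hcount E Subset.rfl,
    sum_congr rfl fun p _ => hcount _ (filter_subset _ _), ← mul_sum] at h1
  have h2 : ∑ _p : U × V, 3 * E.card <
      ∑ p : U × V, 4 * (E.filter fun z => ι (β p.1 p.2) * z ∈ E).card :=
    sum_lt_sum_of_nonempty univ_nonempty fun p _ => by
      have := hbd (ι (β p.1 p.2))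
      have := h p.1 p.2
      omega
  rw [sum_const, card_univ, Fintype.card_prod, smul_eq_mul, ← mul_sum] at h2
  have h3 : 0 < Fintype.card K := Fintype.card_pos
  nlinarith only [h1, Nat.mul_lt_mul_of_pos_left h2 h3]

end Pool.Agent.MP_e6aac2_al.H11S
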