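import Pool.Agent.MP_e6aac2_al.Mg.Coarea

/-!
An inequality between Følner sets of a group and of a quotient.
-/

namespace Pool.Agent.MP_e6aac2_al.H11S

open Finset

lemma bd_eq {M : Type} [Group M] [DecidableEq M] (E : Finset M) (s : M) :
    bd (E : Set M) s = #{x ∈ E | s * x ∉ E} := by
  rw [← Set.ncard_coe_finset, ← ncard_image_mul _ s, bd]
  congr 1
  ext z
  simp only [Set.mem_sdiff, Set.mem_image, mem_coe, coe_filter, Set.mem_ofPred_eq]
  constructor
  · rintro ⟨⟨x, hx, rfl⟩, h⟩; exact ⟨x, ⟨hx, h⟩, rfl⟩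
  · rintro ⟨x, ⟨hx, h⟩, rfl⟩; exact ⟨⟨x, hx, rfl⟩, h⟩

open Classical in
lemma bad_le {ι σ : Type} (T : Finset ι) (S : Finset σ) (c : ι → ℕ) (d : σ → ι → ℕ) (N k W : ℕ)
    (h : ∀ s ∈ S, k * S.card * N * (2 * ∑ g ∈ T, d s g) ≤ W) :
    k * ∑ g ∈ T with ¬ (0 < c g ∧ ∀ s ∈ S, N * (2 * d s g) < c g), c g ≤ W := by
  have h1 : ∑ g ∈ T with ¬ (0 < c g ∧ ∀ s ∈ S, N * (2 * d s g) < c g), c g ≤
      ∑ s ∈ S, N * (2 * ∑ g ∈ T, d s g) := by
    simp only [mul_sum]
    rw [sum_comm]
    refine le_trans (sum_le_sum fun g hg => ?_) (sum_le_sum_of_subset (filter_subset _ _))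
    have h2 := (mem_filter.1 hg).2
    by_cases h0 : 0 < c g
    · push Not at h2
      obtain ⟨s, hs, h3⟩ := h2 h0
      exact h3.trans (single_le_sum (f := fun s => N * (2 * d s g)) (fun _ _ => Nat.zero_le _) hs)
    · omega
  rcases S.eq_empty_or_nonempty with rfl | hS
  · simp only [sum_empty, Nat.le_zero] at h1
    rw [h1]; simp
  · have h2 := sum_le_sum h
    rw [sum_const, smul_eq_mul] at h2
    refine Nat.le_of_mul_le_mul_left (le_trans ?_ h2) (card_pos.2 hS)
    calc S.card * (k * _) ≤ S.card * (k * ∑ s ∈ S, N * (2 * ∑ g ∈ T, d s g)) := by gcongr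
      _ = _ := by rw [mul_sum, mul_sum]; exact sum_congr rfl fun s _ => by ring

variable {M M0 : Type} [Group M] [Group M0]

open Classical in
lemma level_le (π : M →* M0) (S : Finset M) {N n A : ℕ} {E : Finset M} (hne : E.Nonempty)
    (hE : ∀ s ∈ S, n * (2 * bd (E : Set M) s) < E.card) (h3 : 4 * S.card * N ≤ n)
    (hA : ∀ L : Set M0, L.Finite → L.Nonempty →
      (∀ s ∈ S, N * (2 * bd L (π s)) < L.ncard) → A ≤ L.ncard)
    (B : Finset M0) (hB : E.card ≤ 2 * #{x ∈ E | π x ∈ B}) : A ≤ 4 * B.card := by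
  let μ : M0 → ℕ := fun y => #{x ∈ E | π x = y}
  let T : Finset M0 := E.image π
  let L : ℕ → Finset M0 := fun t => T.filter fun y => t < μ y
  have hμ : ∀ y, μ y ≤ E.card := fun y => card_filter_le _ _
  have h1 : ∀ B : Finset M0, ∑ t ∈ range E.card, #{y ∈ L t | y ∈ B} = #{x ∈ E | π x ∈ B} := by
    intro B
    simp only [L, filter_filter]
    simp only [card_filter]
    rw [sum_comm, ← card_filter, card_eq_sum_card_fiberwise (f := π) (t := T)
      fun x hx => mem_coe.2 (mem_image_of_mem _ (mem_filter.1 hx).1)]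
    refine sum_congr rfl fun y _ => ?_
    rw [← card_filter]
    by_cases hy : y ∈ B
    · have : (range E.card).filter (fun t => t < μ y ∧ y ∈ B) = range (μ y) := by
        ext t; have := hμ y; simp only [mem_filter, mem_range, hy, and_true]; omega
      rw [this, card_range, filter_filter]
      exact congrArg card (filter_congr fun x _ => ⟨fun h => ⟨h ▸ hy, h⟩, And.right⟩)
    · simp only [hy, and_false, filter_false, card_empty, filter_filter]
      exact (card_eq_zero.2 (filter_eq_empty_iff.2 fun x _ ⟨h1, h2⟩ => hy (h2 ▸ h1))).symm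
  have h1' : ∑ t ∈ range E.card, (L t).card = E.card := by
    have := h1 T
    rw [filter_true_of_mem (s := E) fun x hx => mem_image_of_mem _ hx] at this
    exact Eq.trans (sum_congr rfl fun t _ => by
      rw [filter_true_of_mem fun y hy => (mem_filter.1 hy).1]) this
  have h2 : ∀ s, ∑ t ∈ range E.card, bd (L t : Set M0) (π s) ≤ bd (E : Set M) s := by
    intro s
    have h3 : ∀ t, bd (L t : Set M0) (π s) ≤ #{y ∈ T | μ (π s * y) ≤ t ∧ t < μ y} := by
      intro t
      rw [bd_eq]
      refine card_le_card fun y hy => ?_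
      simp only [L, mem_filter, not_and, not_lt] at hy ⊢
      refine ⟨hy.1.1, ?_, hy.1.2⟩
      by_cases hT : π s * y ∈ T
      · exact hy.2 hT
      · have : μ (π s * y) = 0 := by
          simp only [μ, card_eq_zero, filter_eq_empty_iff]
          exact fun i hi h => hT (mem_image.2 ⟨i, hi, h⟩)
        omega
    refine (sum_le_sum fun t _ => h3 t).trans ?_
    simp only [card_filter]
    rw [sum_comm, bd_eq, card_eq_sum_card_fiberwise (f := π) (t := T)
      fun x hx => mem_coe.2 (mem_image_of_mem _ (mem_filter.1 hx).1)]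
    refine sum_le_sum fun y _ => ?_
    rw [← card_filter]
    have h4 : #{t ∈ range E.card | μ (π s * y) ≤ t ∧ t < μ y} ≤ μ y - μ (π s * y) := by
      rw [← Nat.card_Ico]
      exact card_le_card fun t ht => mem_Ico.2 (mem_filter.1 ht).2
    have h5 : #{x ∈ E | π x = y ∧ s * x ∈ E} ≤ μ (π s * y) := by
      refine card_le_card_of_injOn (s * ·) (fun i hi => ?_) fun i _ j _ h => mul_left_cancel h
      simp only [coe_filter, Set.mem_ofPred_eq] at hi ⊢
      exact ⟨hi.2.2, by rw [map_mul, hi.2.1]⟩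
    have h6 : μ y ≤ #{x ∈ E | π x = y ∧ s * x ∈ E} +
        #{x ∈ E.filter fun x => s * x ∉ E | π x = y} := by
      refine (card_le_card fun i hi => ?_).trans (card_union_le _ _)
      simp only [mem_filter, mem_union] at hi ⊢
      tauto
    omega
  have h4 := bad_le (range E.card) S (fun t => (L t).card) (fun s t => bd (L t : Set M0) (π s))
    N 4 E.card fun s hs => le_trans (Nat.mul_le_mul h3 (Nat.mul_le_mul_left _ (h2 s))) (hE s hs).le
  by_contra hlt
  set P : ℕ → Prop := fun t => 0 < (L t).card ∧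
    ∀ s ∈ S, N * (2 * bd (L t : Set M0) (π s)) < (L t).card with hP
  have h5 := sum_filter_add_sum_filter_not (range E.card) P fun t => (L t).card
  have h6 := sum_filter_add_sum_filter_not (range E.card) P fun t => #{y ∈ L t | y ∈ B}
  have h7 : 4 * ∑ t ∈ range E.card with P t, #{y ∈ L t | y ∈ B} ≤
      ∑ t ∈ range E.card with P t, (L t).card := by
    rw [mul_sum]
    refine sum_le_sum fun t ht => ?_
    obtain ⟨h8, h9⟩ := (mem_filter.1 ht).2
    have := hA (L t) (finite_toSet _) (coe_nonempty.2 (card_pos.1 h8))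
      (by simpa only [Set.ncard_coe_finset] using h9)
    rw [Set.ncard_coe_finset] at this
    have h10 : #{y ∈ L t | y ∈ B} ≤ B.card := card_le_card fun y hy => (mem_filter.1 hy).2
    omega
  have h8 : ∑ t ∈ range E.card with ¬ P t, #{y ∈ L t | y ∈ B} ≤
      ∑ t ∈ range E.card with ¬ P t, (L t).card := sum_le_sum fun t _ => card_filter_le _ _
  rw [h1] at h6
  rw [h1'] at h5
  have := card_pos.2 hne
  have h9 : 4 * ∑ t ∈ range E.card with ¬ P t, (L t).card ≤ E.card := by convert h4
  omega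

theorem quot_ineq (π : M →* M0) (S : Finset M) {N N1 n n1 A A1 : ℕ} {E : Set M} {F : Set M0}
    (hE : IsFolner S n E) (hFfin : F.Finite) (hFne : F.Nonempty)
    (hF : ∀ s ∈ S, n1 * (2 * bd F (π s)) < F.ncard)
    (h1 : 4 * S.card * N1 ≤ n1) (h2 : n1 ≤ n) (h3 : 4 * S.card * N ≤ n)
    (hA : ∀ L : Set M0, L.Finite → L.Nonempty →
      (∀ s ∈ S, N * (2 * bd L (π s)) < L.ncard) → A ≤ L.ncard)
    (hA1 : ∀ E' : Set M, IsFolner S N1 E' → A1 ≤ E'.ncard) :
    A * A1 ≤ 4 * (F.ncard * E.ncard) := by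
  classical
  obtain ⟨hfin, hne, hE⟩ := isFolner_iff.1 hE
  lift E to Finset M using hfin
  lift F to Finset M0 using hFfin
  simp only [Set.ncard_coe_finset] at hE hF ⊢
  let T : Finset M0 := (F ×ˢ E).image fun p => p.1⁻¹ * π p.2
  let D : M0 → Finset M := fun g => E.filter fun x => π x * g⁻¹ ∈ F
  have key : ∀ (Q : M → M0 → Prop), ∑ g ∈ T, #{x ∈ E | π x * g⁻¹ ∈ F ∧ Q x (π x * g⁻¹)} =
      ∑ x ∈ E, #{a ∈ F | Q x a} := by
    intro Q
    simp only [card_filter]
    rw [sum_comm]
    refine sum_congr rfl fun x hx => ?_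
    rw [← card_filter, ← card_filter]
    refine card_nbij' (fun g => π x * g⁻¹) (fun a => a⁻¹ * π x) (fun g hg => ?_) (fun a ha => ?_)
      (fun g _ => by simp) fun a _ => by simp
    · simp only [coe_filter, Set.mem_ofPred_eq] at hg ⊢
      exact hg.2
    · simp only [coe_filter, Set.mem_ofPred_eq] at ha ⊢
      exact ⟨mem_image.2 ⟨(a, x), mem_product.2 ⟨ha.1, hx⟩, rfl⟩, by simpa using ha⟩
  have k1 : ∑ g ∈ T, (D g).card = E.card * F.card := by simpa using key fun _ _ => True
  have k2 : ∀ s, ∑ g ∈ T, bd (D g : Set M) s ≤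
      bd (E : Set M) s * F.card + E.card * bd (F : Set M0) (π s) := by
    intro s
    have e1 := (key fun x _ => s * x ∉ E).trans (show _ = bd (E : Set M) s * F.card by
      rw [bd_eq, card_filter, sum_mul]
      refine sum_congr rfl fun x _ => ?_
      by_cases h : s * x ∈ E <;> simp [h])
    have e2 := (key fun _ a => π s * a ∉ F).trans (show _ = E.card * bd (F : Set M0) (π s) by
      rw [bd_eq, sum_const, smul_eq_mul]; convert rfl)
    rw [← e1, ← e2, ← sum_add_distrib]
    refine sum_le_sum fun g _ => ?_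
    rw [bd_eq]
    refine (card_le_card fun x hx => ?_).trans (card_union_le _ _)
    simp only [D, mem_filter, mem_union, map_mul, mul_assoc] at hx ⊢
    tauto
  have k3 := bad_le T S (fun g => (D g).card) (fun s g => bd (D g : Set M) s) N1 2
    (E.card * F.card) fun s hs => by
      have a1 := k2 s
      have a2 := (Nat.mul_le_mul_right _ h2).trans (hE s hs).le
      have a3 := (hF s hs).le
      have a4 : n1 * (2 * ∑ g ∈ T, bd (D g : Set M) s) ≤ 2 * (E.card * F.card) := by
        calc _ ≤ n1 * (2 * (bd (E : Set M) s * F.card + E.card * bd (F : Set M0) (π s))) := by gcongr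
          _ = n1 * (2 * bd (E : Set M) s) * F.card + E.card * (n1 * (2 * bd (F : Set M0) (π s))) := by
            ring
          _ ≤ E.card * F.card + E.card * F.card := by gcongr
          _ = _ := by ring
      have a5 := (Nat.mul_le_mul_right _ h1).trans a4
      nlinarith
  set P : M0 → Prop := fun g => 0 < (D g).card ∧
    ∀ s ∈ S, N1 * (2 * bd (D g : Set M) s) < (D g).card with hP
  have k4 := sum_filter_add_sum_filter_not T P fun g => (D g).card
  set Γ := T.filter P with hΓ
  have k5 : Γ.card * A1 ≤ ∑ g ∈ Γ, (D g).card := by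
    rw [← smul_eq_mul, ← sum_const]
    refine sum_le_sum fun g hg => ?_
    obtain ⟨h8, h9⟩ := (mem_filter.1 hg).2
    have := hA1 (D g) (isFolner_iff.2 ⟨finite_toSet _, coe_nonempty.2 (card_pos.1 h8),
      by simpa only [Set.ncard_coe_finset] using h9⟩)
    rwa [Set.ncard_coe_finset] at this
  have k6 : ∑ g ∈ Γ, (D g).card = ∑ a ∈ F, #{x ∈ E | π x ∈ Γ.image (a * ·)} := by
    have := key fun x a => π x ∈ Γ.image (a * ·)
    simp only [card_filter] at this ⊢
    rw [sum_comm (s := F)]
    refine Eq.trans ?_ (this.trans (by convert rfl))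
    rw [hΓ, sum_filter]
    refine sum_congr rfl fun g hg => ?_
    have e : ∀ x, π x ∈ (T.filter P).image (π x * g⁻¹ * ·) ↔ P g := fun x => by
      rw [mem_image]
      refine ⟨fun ⟨y, hy, h⟩ => ?_, fun h => ⟨g, mem_filter.2 ⟨hg, h⟩, by simp⟩⟩
      have : y = g := by
        rw [mul_assoc, mul_eq_left, inv_mul_eq_one] at h
        exact h.symm
      exact this ▸ (mem_filter.1 hy).2
    by_cases h : P g
    · rw [if_pos h, card_filter]
      exact sum_congr rfl fun x _ => by simp only [e, h, and_true]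
    · rw [if_neg h]
      exact (sum_eq_zero fun x _ => by simp only [e, h, and_false, if_false]).symm
  obtain ⟨a, -, ha⟩ : ∃ a ∈ F, E.card ≤ 2 * #{x ∈ E | π x ∈ Γ.image (a * ·)} := by
    refine exists_le_of_sum_le (coe_nonempty.1 hFne) ?_
    rw [← mul_sum, ← k6, sum_const, smul_eq_mul, mul_comm]
    have k3' : 2 * ∑ g ∈ T with ¬ P g, (D g).card ≤ E.card * F.card := by convert k3
    omega
  have k7 := (level_le π S (coe_nonempty.1 hne) hE h3 hA _ (by convert ha)).trans
    (Nat.mul_le_mul_left _ card_image_le)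
  calc A * A1 ≤ 4 * Γ.card * A1 := Nat.mul_le_mul_right _ k7
    _ = 4 * (Γ.card * A1) := mul_assoc _ _ _
    _ ≤ _ := by rw [mul_comm F.card]; omega

end Pool.Agent.MP_e6aac2_al.H11S
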