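import Pool.Agent.MP_e6aac2_al.H11S.Ineq
import Pool.Agent.MP_e6aac2_al.H11S.Event

/-!
Ratios of values of the Følner function of a self-similar group are lower semicomputable, up to
a bounded change of scale.
-/

namespace Pool.Agent.MP_e6aac2_al.H11S

open Primrec

lemma re_normal {A : ℕ → Prop} (h : REPred A) :
    ∃ T : ℕ → ℕ → Prop, PrimrecRel T ∧ ∀ p, A p ↔ ∃ w, T p w := by
  classical
  obtain ⟨c, hc⟩ := Nat.Partrec.Code.exists_code.1 h
  refine ⟨fun p w => Nat.Partrec.Code.evaln w c (Encodable.encode p) ≠ none,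
    (Primrec.eq.comp (Nat.Partrec.Code.primrec_evaln.comp
      ((snd.pair (const c)).pair (Primrec.encode.comp fst))) (const none)).not, fun p => ?_⟩
  have h1 : A p ↔ ∃ x, x ∈ c.eval (Encodable.encode p) := by
    rw [hc]
    simp only [Encodable.encodek, Part.coe_some, Part.bind_some]
    simp
  simp only [h1, Nat.Partrec.Code.evaln_complete, Option.ne_none_iff_exists']
  exact exists_comm

lemma fol_anti {M : Type} [Group M] {S : Finset M} {m n : ℕ} {E : Set M} (h : IsFolner S n E)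
    (hmn : m ≤ n) : IsFolner S m E :=
  ⟨h.1, h.2.1, fun s hs => lt_of_le_of_lt (Nat.mul_le_mul_right _ hmn) (h.2.2 s hs)⟩

theorem ratio {f : ℕ → ℕ} (hf : IsSelfSimilarFolnerType f) : ∃ C : ℕ, 0 < C ∧ ∃ ρ : ℕ → ℕ → ℕ,
    (REPred fun p : (ℕ × ℕ) × ℕ => p.2 ≤ ρ p.1.1 p.1.2) ∧ ∀ m n, 1 ≤ m → m ≤ n →
      f n ≤ C * (ρ m n * f (C * m)) ∧ ρ m n * f m ≤ C * f (C * n) := by
  obtain ⟨X, _, G, S, hG, hS, hF, ⟨C1, hC1, g1⟩, ⟨C2, hC2, g2⟩⟩ := hf
  obtain ⟨r, hr⟩ : ∃ r, r = S.card := ⟨_, rfl⟩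
  have hu : Primrec fun i : ℕ => i.unpair := Primrec.unpair
  obtain ⟨P, hP, hev⟩ := exists_event G S hG hS (N := fun i => i.unpair.1.unpair.2)
    (n' := fun i => 4 * (r + 1) * i.unpair.1.unpair.1) (A := fun i => i.unpair.2.unpair.1)
    (B := fun i => i.unpair.2.unpair.2) (snd.comp (hu.comp (fst.comp hu)))
    (nat_mul.comp (const _) (fst.comp (hu.comp (fst.comp hu)))) (fst.comp (hu.comp (snd.comp hu)))
    (snd.comp (hu.comp (snd.comp hu)))
  have hmono : Monotone (folner S) := fun a b hab => by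
    obtain ⟨E, hE, hc⟩ := folner_spec (hF b)
    exact hc ▸ folner_le (fol_anti hE hab)
  have hpos : ∀ n, 0 < folner S n := fun n => by
    obtain ⟨E, hE, hc⟩ := folner_spec (hF n)
    exact hc ▸ (Set.ncard_pos hE.1).2 hE.2.1
  set K := 4 * (r + 1) ^ 2 with hK
  have hK4 : 4 ≤ K := Nat.le_mul_of_pos_right _ (by positivity)
  have comp : ∀ m n, P (Nat.pair (Nat.pair m n) (Nat.pair (folner S n) (folner S (K * m)))) := by
    intro m n
    refine (hev _).1 (fun E hE => ?_) ?_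
    · simp only [Nat.unpair_pair] at hE ⊢
      exact folner_le hE
    · obtain ⟨E, hE, hc⟩ := folner_spec (hF (K * m))
      simp only [Nat.unpair_pair]
      exact ⟨E, fol_anti hE (by rw [← hr, hK]; nlinarith [Nat.zero_le (r * m)]), hc.le⟩
  have sound : ∀ m n A B k, m ≤ n → P (Nat.pair (Nat.pair m n) (Nat.pair A B)) → k * B ≤ A →
      k * folner S m ≤ 4 * folner S (K * n) := by
    intro m n A B k hmn h hk
    obtain ⟨M0, _, π, hA, F, hFf, hFn, hFF, hFB⟩ := (hev _).2 h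
    simp only [Nat.unpair_pair] at hA hFF hFB
    obtain ⟨E, hE, hc⟩ := folner_spec (hF (K * n))
    have h1 := quot_ineq π S (N := S.card * n) (N1 := m) (A1 := folner S m) hE hFf hFn hFF
      (by rw [← hr]; nlinarith) (by rw [hK]; exact Nat.mul_le_mul (by nlinarith) hmn)
      (by rw [← hr, hK]; nlinarith [Nat.zero_le (r * n)]) hA fun E' hE' => folner_le hE'
    have h2 : 0 < F.ncard := (Set.ncard_pos hFf).2 hFn
    rw [hc] at h1
    refine Nat.le_of_mul_le_mul_left ?_ h2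
    calc F.ncard * (k * folner S m) = k * F.ncard * folner S m := by ring
      _ ≤ A * folner S m := Nat.mul_le_mul_right _ ((Nat.mul_le_mul_left _ hFB).trans hk)
      _ ≤ _ := h1.trans (le_of_eq (by ring))
  obtain ⟨T, hT, hPT⟩ := re_normal hP
  let Q : ℕ → ℕ → ℕ → Prop := fun m n k => ∃ b : ℕ × ℕ × ℕ, k ≤ 1 ∨ (m ≤ n ∧
    T (Nat.pair (Nat.pair (C1 * m) (C1 * n)) (Nat.pair b.1 b.2.1)) b.2.2 ∧ k * b.2.1 ≤ b.1)
  have hQ : ∀ m n k, m ≤ n → Q m n k → k * folner S (C1 * m) ≤ 4 * folner S (K * (C1 * n)) := by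
    rintro m n k hmn ⟨b, h | ⟨-, h1, h2⟩⟩
    · exact Nat.mul_le_mul (by omega) (hmono ((Nat.mul_le_mul_left _ hmn).trans
        (Nat.le_mul_of_pos_left _ (by omega))))
    · exact sound _ _ _ _ _ (Nat.mul_le_mul_left _ hmn) ((hPT _).2 ⟨_, h1⟩) h2
  have hbd : ∀ m n, BddAbove {k | Q m n k} := fun m n => by
    refine ⟨4 * folner S (K * (C1 * n)) + 1, fun k hk => ?_⟩
    by_cases hmn : m ≤ n
    · exact ((Nat.le_mul_of_pos_right _ (hpos _)).trans (hQ m n k hmn hk)).trans (Nat.le_succ _)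
    · obtain ⟨b, h | h⟩ := hk
      · omega
      · exact absurd h.1 hmn
  have hone : ∀ m n, Q m n 1 := fun m n => ⟨0, Or.inl le_rfl⟩
  have hsup : ∀ m n, Q m n (sSup {k | Q m n k}) := fun m n =>
    Nat.sSup_mem (s := {k | Q m n k}) ⟨1, hone m n⟩ (hbd m n)
  have hiff : ∀ m n k, Q m n k ↔ k ≤ sSup {k | Q m n k} := fun m n k => by
    refine ⟨fun h => le_csSup (hbd m n) h, fun h => ?_⟩
    obtain ⟨b, hb⟩ := hsup m n
    exact ⟨b, hb.imp h.trans fun ⟨h1, h2, h3⟩ => ⟨h1, h2, (Nat.mul_le_mul_right _ h).trans h3⟩⟩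
  refine ⟨C2 * (K * C1), by positivity, fun m n => sSup {k | Q m n k}, ?_, fun m n hm hmn => ?_⟩
  · have hp : Primrec₂ Nat.pair := Primrec₂.natPair
    have h1 : PrimrecRel fun (p : (ℕ × ℕ) × ℕ) (b : ℕ × ℕ × ℕ) => p.2 ≤ 1 ∨ (p.1.1 ≤ p.1.2 ∧
        T (Nat.pair (Nat.pair (C1 * p.1.1) (C1 * p.1.2)) (Nat.pair b.1 b.2.1)) b.2.2 ∧
          p.2 * b.2.1 ≤ b.1) :=
      (nat_le.comp (snd.comp fst) (const 1)).or
        ((nat_le.comp (fst.comp (fst.comp fst)) (snd.comp (fst.comp fst))).and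
          ((hT.comp (hp.comp (hp.comp (nat_mul.comp (const C1) (fst.comp (fst.comp fst)))
            (nat_mul.comp (const C1) (snd.comp (fst.comp fst))))
            (hp.comp (fst.comp snd) (fst.comp (snd.comp snd)))) (snd.comp (snd.comp snd))).and
          (nat_le.comp (nat_mul.comp (snd.comp fst) (fst.comp (snd.comp snd))) (fst.comp snd))))
    exact (re_of_exists h1).of_eq fun p => hiff p.1.1 p.1.2 p.2
  · have hKC : ∀ x, 1 ≤ x → 1 ≤ K * (C1 * x) := fun x hx =>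
      Nat.mul_pos (by omega) (Nat.mul_pos hC1 hx)
    have e : ∀ x, C2 * (K * C1) * x = C2 * (K * (C1 * x)) := fun x => by ring
    set ρ := sSup {k | Q m n k} with hρ
    have h1 : 1 ≤ ρ := (hiff m n 1).1 (hone m n)
    rw [e m, e n]
    constructor
    · obtain ⟨w, hw⟩ := (hPT _).1 (comp (C1 * m) (C1 * n))
      have h2 : folner S (C1 * n) / folner S (K * (C1 * m)) ≤ ρ :=
        (hiff m n _).1 ⟨(_, _, w), Or.inr ⟨hmn, hw, Nat.div_mul_le_self _ _⟩⟩
      have h3 := Nat.lt_mul_div_succ (folner S (C1 * n)) (hpos (K * (C1 * m)))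
      have h4 := g2 _ (hKC m hm)
      calc f n ≤ C1 * folner S (C1 * n) := g1 n (hm.trans hmn)
        _ ≤ C1 * (folner S (K * (C1 * m)) * (K * ρ)) :=
          Nat.mul_le_mul_left _ (h3.le.trans (Nat.mul_le_mul_left _ (by nlinarith)))
        _ ≤ C1 * (C2 * f (C2 * (K * (C1 * m))) * (K * ρ)) := by gcongr
        _ = _ := by ring
    · have h2 := hQ m n ρ hmn (hsup m n)
      have h4 := g2 _ (hKC n (hm.trans hmn))
      calc ρ * f m ≤ ρ * (C1 * folner S (C1 * m)) := Nat.mul_le_mul_left _ (g1 m hm)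
        _ = C1 * (ρ * folner S (C1 * m)) := by ring
        _ ≤ C1 * (K * (C2 * f (C2 * (K * (C1 * n))))) :=
          Nat.mul_le_mul_left _ (h2.trans (Nat.mul_le_mul hK4 h4))
        _ = C2 * (K * C1) * f (C2 * (K * (C1 * n))) := by ring

end Pool.Agent.MP_e6aac2_al.H11S
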