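import Pool.Agent.MP_e6aac2_al.H11S.Gap

/-! A three-generated residually finite group with Følner function of type `2 ^ (n + τ n)`. -/

namespace Pool.Agent.MP_e6aac2_al.H11S

open Finset

/-- the period of the level `d` -/
abbrev ZQ (ν : ℕ → ℕ) (d : ℕ) : Type := ZMod (2 * (d + 1) * (ν d + 1))

/-- the period of the central coordinates of the level `d` -/
abbrev ZM (ν : ℕ → ℕ) (d : ℕ) : Type := ZMod (ν d + 1)

/-- the central coordinates -/
abbrev SE (ν : ℕ → ℕ) : Type := ∀ d, ZM ν d → ZMod 2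

/-- the finite set of level `d` -/
abbrev SO (ν : ℕ → ℕ) (d : ℕ) : Type := ZQ ν d × (ZQ ν d → ZMod 2) × (ZM ν d → ZMod 2)

/-- the ambient group -/
abbrev SG (ν : ℕ → ℕ) : Type := ∀ d, Equiv.Perm (SO ν d)

/-- reduction of the period -/
def sc (ν : ℕ → ℕ) (d : ℕ) : ZQ ν d →+* ZM ν d := ZMod.castHom (dvd_mul_left _ _) _

/-- extension by zero -/
def sext (ν : ℕ → ℕ) (d : ℕ) {L : ℕ} (q : Fin L → ZMod 2) (y : ZQ ν d) : ZMod 2 :=
  ∑ i : Fin L, if y = ((i : ℕ) : ZQ ν d) then q i else 0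

/-- the bilinear cocycle -/
def sgam (ν : ℕ → ℕ) (d : ℕ) {L : ℕ} (p : Fin L → ZMod 2) (v : ZQ ν d → ZMod 2) (x : ZM ν d) :
    ZMod 2 :=
  ∑ j : Fin L, if x = ((j : ℕ) : ZM ν d) then p j * v (((j : ℕ) : ZQ ν d) + (d : ZQ ν d)) else 0

variable {ν : ℕ → ℕ} {L d : ℕ}

lemma sext_add (q q' : Fin L → ZMod 2) : sext ν d (q + q') = sext ν d q + sext ν d q' := by
  funext y
  simp only [sext, Pi.add_apply, ← sum_add_distrib]
  exact sum_congr rfl fun i _ => by split_ifs <;> simp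

lemma sext_zero : sext ν d (0 : Fin L → ZMod 2) = 0 := by
  funext y
  simp [sext]

lemma sext_single (k : Fin L) (y : ZQ ν d) :
    sext ν d (Pi.single k 1 : Fin L → ZMod 2) y = if y = ((k : ℕ) : ZQ ν d) then 1 else 0 := by
  rw [sext, sum_eq_single k]
  · simp
  · intro i _ hi
    simp [Pi.single_eq_of_ne hi]
  · simp

lemma sgam_add_left (p p' : Fin L → ZMod 2) (v : ZQ ν d → ZMod 2) :
    sgam ν d (p + p') v = sgam ν d p v + sgam ν d p' v := by
  funext x
  simp only [sgam, Pi.add_apply, ← sum_add_distrib]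
  exact sum_congr rfl fun i _ => by split_ifs <;> simp [add_mul]

lemma sgam_add_right (p : Fin L → ZMod 2) (v v' : ZQ ν d → ZMod 2) :
    sgam ν d p (v + v') = sgam ν d p v + sgam ν d p v' := by
  funext x
  simp only [sgam, Pi.add_apply, ← sum_add_distrib]
  exact sum_congr rfl fun i _ => by split_ifs <;> simp [mul_add]

lemma sgam_zero_left (v : ZQ ν d → ZMod 2) : sgam ν d (0 : Fin L → ZMod 2) v = 0 := by
  funext x
  simp [sgam]

lemma sgam_zero_right (p : Fin L → ZMod 2) : sgam ν d p 0 = 0 := by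
  funext x
  simp [sgam]

lemma sgam_single (k : Fin L) (v : ZQ ν d → ZMod 2) (x : ZM ν d) :
    sgam ν d (Pi.single k 1 : Fin L → ZMod 2) v x =
      if x = ((k : ℕ) : ZM ν d) then v (((k : ℕ) : ZQ ν d) + (d : ZQ ν d)) else 0 := by
  rw [sgam, sum_eq_single k]
  · simp
  · intro i _ hi
    simp [Pi.single_eq_of_ne hi]
  · simp

/-- the action of a triple -/
def sfun (ν : ℕ → ℕ) (d : ℕ) {L : ℕ} (p q : Fin L → ZMod 2) (e : ZM ν d → ZMod 2) (w : SO ν d) :
    SO ν d :=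
  (w.1, fun y => w.2.1 y + sext ν d q (y - w.1),
    fun x => w.2.2 x + e (x - sc ν d w.1) +
      sgam ν d p (fun y => w.2.1 (y + w.1)) (x - sc ν d w.1))

lemma sfun_comp (p q p' q' : Fin L → ZMod 2) (e e' : ZM ν d → ZMod 2) (w : SO ν d) :
    sfun ν d p q e (sfun ν d p' q' e' w) =
      sfun ν d (p + p') (q + q') (e + e' + sgam ν d p (sext ν d q')) w := by
  obtain ⟨r, v, c⟩ := w
  have h : (fun y => v (y + r) + sext ν d q' (y + r - r)) =
      (fun y => v (y + r)) + sext ν d q' := by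
    funext y
    simp
  simp only [sfun, h, sext_add, sgam_add_left, sgam_add_right, Pi.add_apply, Prod.mk.injEq,
    true_and]
  exact ⟨funext fun y => by ring, funext fun x => by ring⟩

lemma sfun_zero (w : SO ν d) : sfun ν d (0 : Fin L → ZMod 2) 0 0 w = w := by
  obtain ⟨r, v, c⟩ := w
  simp [sfun, sext_zero, sgam_zero_left]

lemma s_self {I : Type} (p : I → ZMod 2) : p + p = 0 := funext fun _ => CharTwo.add_self_eq_zero _

lemma s_selfE (e : SE ν) : e + e = 0 := funext fun _ => s_self _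

/-- the cocycle on all levels -/
def sbe (ν : ℕ → ℕ) {L : ℕ} (p q : Fin L → ZMod 2) : SE ν := fun d => sgam ν d p (sext ν d q)

lemma sbe_add_left (p p' q : Fin L → ZMod 2) : sbe ν (p + p') q = sbe ν p q + sbe ν p' q :=
  funext fun _ => sgam_add_left ..

lemma sbe_add_right (p q q' : Fin L → ZMod 2) : sbe ν p (q + q') = sbe ν p q + sbe ν p q' :=
  funext fun d => by simp [sbe, sext_add, sgam_add_right]

lemma sbe_zero_left (q : Fin L → ZMod 2) : sbe ν 0 q = 0 := funext fun _ => sgam_zero_left _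

lemma sbe_zero_right (p : Fin L → ZMod 2) : sbe ν p 0 = 0 :=
  funext fun d => by simp [sbe, sext_zero, sgam_zero_right]

/-- the permutations given by a triple -/
def sPhi (ν : ℕ → ℕ) {L : ℕ} (p q : Fin L → ZMod 2) (e : SE ν) : SG ν := fun d =>
  { toFun := sfun ν d p q (e d)
    invFun := sfun ν d p q (e d + sgam ν d p (sext ν d q))
    left_inv := fun w => by
      have h : e d + sgam ν d p (sext ν d q) + e d + sgam ν d p (sext ν d q) = 0 := by
        rw [add_assoc, s_self]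
      rw [sfun_comp, s_self, s_self, h, sfun_zero]
    right_inv := fun w => by
      have h : e d + (e d + sgam ν d p (sext ν d q)) + sgam ν d p (sext ν d q) = 0 := by
        rw [← add_assoc, s_self, zero_add, s_self]
      rw [sfun_comp, s_self, s_self, h, sfun_zero] }

lemma sPhi_mul (p q p' q' : Fin L → ZMod 2) (e e' : SE ν) :
    sPhi ν p q e * sPhi ν p' q' e' = sPhi ν (p + p') (q + q') (e + e' + sbe ν p q') :=
  funext fun d => Equiv.ext fun w => sfun_comp p q p' q' (e d) (e' d) w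

lemma sPhi_zero : sPhi ν (0 : Fin L → ZMod 2) 0 0 = 1 :=
  funext fun _ => Equiv.ext fun w => sfun_zero w

lemma sPhi_inv (p q : Fin L → ZMod 2) (e : SE ν) :
    (sPhi ν p q e)⁻¹ = sPhi ν p q (e + sbe ν p q) := funext fun _ => Equiv.ext fun _ => rfl

lemma sPhi_inj {e e' : SE ν}
    (h : sPhi ν (0 : Fin L → ZMod 2) 0 e = sPhi ν (0 : Fin L → ZMod 2) 0 e') : e = e' := by
  funext d x
  have h1 : sfun ν d (0 : Fin L → ZMod 2) 0 (e d) 0 = sfun ν d (0 : Fin L → ZMod 2) 0 (e' d) 0 :=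
    DFunLike.congr_fun (congrFun h d) 0
  have h2 := congrFun (congrArg (fun w : SO ν d => w.2.2) h1) x
  simpa [sfun, sgam_zero_left] using h2

/-- the translations -/
def ssh (ν : ℕ → ℕ) (k : ℤ) : SG ν := fun d =>
  { toFun := fun w => (w.1 + (k : ZQ ν d), w.2)
    invFun := fun w => (w.1 - (k : ZQ ν d), w.2)
    left_inv := fun w => by simp
    right_inv := fun w => by simp }

lemma ssh_add (k l : ℤ) : ssh ν (k + l) = ssh ν k * ssh ν l :=
  funext fun d => Equiv.ext fun w => by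
    change (w.1 + ((k + l : ℤ) : ZQ ν d), w.2) = (w.1 + (l : ZQ ν d) + (k : ZQ ν d), w.2)
    rw [Int.cast_add, add_assoc, add_comm (l : ZQ ν d)]

lemma ssh_zero : ssh ν 0 = 1 := funext fun d => Equiv.ext fun w => by
  change (w.1 + ((0 : ℤ) : ZQ ν d), w.2) = w
  simp

lemma ssh_zpow (k : ℤ) : ssh ν 1 ^ k = ssh ν k := by
  induction k using Int.induction_on with
  | zero => simp [ssh_zero]
  | succ k ih => rw [zpow_add_one, ih, ssh_add]
  | pred k ih =>
    rw [zpow_sub_one, ih, mul_inv_eq_iff_eq_mul, ← ssh_add]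
    congr 1
    ring

/-- first generator -/
def sA (ν : ℕ → ℕ) : SG ν := sPhi ν (Pi.single 0 1 : Fin 1 → ZMod 2) 0 0

/-- second generator -/
def sB (ν : ℕ → ℕ) : SG ν := sPhi ν 0 (Pi.single 0 1 : Fin 1 → ZMod 2) 0

lemma sconj_A (k : Fin L) : (ssh ν ((k : ℕ) : ℤ))⁻¹ * sA ν * ssh ν ((k : ℕ) : ℤ) =
    sPhi ν (Pi.single k 1 : Fin L → ZMod 2) 0 0 := by
  rw [mul_assoc, inv_mul_eq_iff_eq_mul]
  refine funext fun d => Equiv.ext fun w => ?_
  obtain ⟨r, v, c⟩ := w
  change sfun ν d (Pi.single 0 1 : Fin 1 → ZMod 2) 0 0 (r + (((k : ℕ) : ℤ) : ZQ ν d), v, c) =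
    ((sfun ν d (Pi.single k 1 : Fin L → ZMod 2) 0 0 (r, v, c)).1 + (((k : ℕ) : ℤ) : ZQ ν d),
      (sfun ν d (Pi.single k 1 : Fin L → ZMod 2) 0 0 (r, v, c)).2)
  simp only [sfun, sext_zero, sgam_single, Pi.zero_apply, add_zero, Prod.mk.injEq, true_and,
    Int.cast_natCast, map_add, map_natCast, Fin.val_zero, Nat.cast_zero]
  funext x
  have h1 : x - (sc ν d r + ((k : ℕ) : ZM ν d)) = 0 ↔ x - sc ν d r = ((k : ℕ) : ZM ν d) := by
    rw [← sub_sub, sub_eq_zero]
  have h2 : 0 + (d : ZQ ν d) + (r + ((k : ℕ) : ZQ ν d)) = ((k : ℕ) : ZQ ν d) + d + r := by ring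
  simp only [h1, h2]

lemma sconj_B (k : Fin L) : (ssh ν ((k : ℕ) : ℤ))⁻¹ * sB ν * ssh ν ((k : ℕ) : ℤ) =
    sPhi ν 0 (Pi.single k 1 : Fin L → ZMod 2) 0 := by
  rw [mul_assoc, inv_mul_eq_iff_eq_mul]
  refine funext fun d => Equiv.ext fun w => ?_
  obtain ⟨r, v, c⟩ := w
  change sfun ν d 0 (Pi.single 0 1 : Fin 1 → ZMod 2) 0 (r + (((k : ℕ) : ℤ) : ZQ ν d), v, c) =
    ((sfun ν d 0 (Pi.single k 1 : Fin L → ZMod 2) 0 (r, v, c)).1 + (((k : ℕ) : ℤ) : ZQ ν d),
      (sfun ν d 0 (Pi.single k 1 : Fin L → ZMod 2) 0 (r, v, c)).2)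
  simp only [sfun, sext_single, sgam_zero_left, Pi.zero_apply, add_zero, Prod.mk.injEq, true_and,
    and_true, Int.cast_natCast, Fin.val_zero, Nat.cast_zero]
  funext y
  have h1 : y - (r + ((k : ℕ) : ZQ ν d)) = 0 ↔ y - r = ((k : ℕ) : ZQ ν d) := by
    rw [← sub_sub, sub_eq_zero]
  simp only [h1]

/-- central data of bounded range -/
def sPer (ν : ℕ → ℕ) (L : ℕ) : AddSubgroup (SE ν) where
  carrier := {e | ∀ d, L ≤ d → e d = 0}
  zero_mem' := fun _ _ => rfl
  add_mem' := fun {e e'} h h' d hd => by rw [Pi.add_apply, h d hd, h' d hd, add_zero]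
  neg_mem' := fun {e} h d hd => by rw [Pi.neg_apply, h d hd, neg_zero]

lemma s_ne {a b : ℕ} (h1 : b < a) (h2 : a ≤ b + 2 * d + 1) : (a : ZQ ν d) ≠ (b : ZQ ν d) := by
  intro h
  have h3 := Nat.le_of_dvd (by omega)
    ((Nat.modEq_iff_dvd' h1.le).1 ((ZMod.natCast_eq_natCast_iff _ _ _).1 h.symm))
  have h4 : 2 * (d + 1) ≤ 2 * (d + 1) * (ν d + 1) := Nat.le_mul_of_pos_right _ (Nat.succ_pos _)
  omega

lemma sbe_mem (p q : Fin L → ZMod 2) : sbe ν p q ∈ sPer ν L := by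
  refine fun d hd => funext fun x => ?_
  change sgam ν d p (sext ν d q) x = 0
  refine sum_eq_zero fun j _ => ?_
  have h : sext ν d q (((j : ℕ) : ZQ ν d) + (d : ZQ ν d)) = 0 := sum_eq_zero fun i _ => by
    have := i.2
    have := j.2
    rw [← Nat.cast_add, if_neg (s_ne (by omega) (by omega))]
  simp [h]

lemma sres_bij : Function.Bijective
    fun (e : sPer ν L) (i : Σ d : Fin L, ZM ν d) => (e : SE ν) i.1 i.2 := by
  refine ⟨fun e e' h => Subtype.ext (funext fun d => ?_), fun w =>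
    ⟨⟨fun d x => if h : d < L then w ⟨⟨d, h⟩, x⟩ else 0, fun d hd => funext fun x =>
      dif_neg (not_lt.2 hd)⟩, funext fun i => dif_pos i.1.2⟩⟩
  by_cases hd : L ≤ d
  · rw [e.2 d hd, e'.2 d hd]
  · exact funext fun x => congrFun h ⟨⟨d, not_le.1 hd⟩, x⟩

lemma sPer_finite : Finite (sPer ν L) := Finite.of_injective _ sres_bij.1

lemma sPer_card : Nat.card (sPer ν L) = 2 ^ ∑ d ∈ range L, (ν d + 1) := by
  rw [Nat.card_eq_of_bijective _ sres_bij, Nat.card_eq_fintype_card, Fintype.card_fun, ZMod.card,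
    Fintype.card_sigma, ← Fin.sum_univ_eq_sum_range (fun d => ν d + 1)]
  simp

/-- the finite subgroups -/
def sH (ν : ℕ → ℕ) (L : ℕ) : Subgroup (SG ν) where
  carrier := {g | ∃ p q : Fin L → ZMod 2, ∃ e ∈ sPer ν L, g = sPhi ν p q e}
  one_mem' := ⟨0, 0, 0, zero_mem _, sPhi_zero.symm⟩
  mul_mem' := by
    rintro _ _ ⟨p, q, e, he, rfl⟩ ⟨p', q', e', he', rfl⟩
    exact ⟨_, _, _, add_mem (add_mem he he') (sbe_mem p q'), sPhi_mul ..⟩
  inv_mem' := by
    rintro _ ⟨p, q, e, he, rfl⟩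
    exact ⟨_, _, _, add_mem he (sbe_mem p q), sPhi_inv ..⟩

lemma sH_surj : Function.Surjective
    fun z : (Fin L → ZMod 2) × (Fin L → ZMod 2) × sPer ν L =>
      (⟨sPhi ν z.1 z.2.1 z.2.2, z.1, z.2.1, z.2.2, z.2.2.2, rfl⟩ : sH ν L) := by
  rintro ⟨_, p, q, e, he, rfl⟩
  exact ⟨(p, q, ⟨e, he⟩), rfl⟩

lemma sH_finite : Finite (sH ν L) := by
  have := sPer_finite (ν := ν) (L := L)
  exact Finite.of_surjective _ sH_surj

lemma sH_card : Nat.card (sH ν L) ≤ 2 ^ L * (2 ^ L * 2 ^ ∑ d ∈ range L, (ν d + 1)) := by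
  have := sPer_finite (ν := ν) (L := L)
  refine (Nat.card_le_card_of_surjective _ sH_surj).trans ?_
  have h : Nat.card (Fin L → ZMod 2) = 2 ^ L := by simp
  rw [Nat.card_prod, Nat.card_prod, h, sPer_card]

/-- the group -/
abbrev sM (ν : ℕ → ℕ) : Subgroup (SG ν) := Subgroup.closure {sA ν, sB ν, ssh ν 1}

lemma sA_mem : sA ν ∈ sM ν := Subgroup.subset_closure (by simp)

lemma sB_mem : sB ν ∈ sM ν := Subgroup.subset_closure (by simp)

lemma sT_mem : ssh ν 1 ∈ sM ν := Subgroup.subset_closure (by simp)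

open Classical in
/-- the generating set -/
noncomputable def sS (ν : ℕ → ℕ) : Finset (sM ν) :=
  {⟨sA ν, sA_mem⟩, ⟨sB ν, sB_mem⟩, ⟨ssh ν 1, sT_mem⟩}

lemma mem_sS {s : sM ν} :
    s ∈ sS ν ↔ s = ⟨sA ν, sA_mem⟩ ∨ s = ⟨sB ν, sB_mem⟩ ∨ s = ⟨ssh ν 1, sT_mem⟩ := by
  simp [sS]

lemma card_sS : (sS ν).card ≤ 3 := by
  classical
  unfold sS
  exact card_le_three

lemma closure_sS : Subgroup.closure ((sS ν : Finset (sM ν)) : Set (sM ν)) = ⊤ := by
  rw [← Subgroup.closure_closure_coe_preimage (k := {sA ν, sB ν, ssh ν 1})]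
  congr 1
  ext s
  simp only [mem_coe, mem_sS, Set.mem_preimage, Set.mem_insert_iff, Set.mem_singleton_iff,
    Subtype.ext_iff]

lemma s_upper (n : ℕ) : ∃ E, IsFolner (sS ν) n E ∧
    E.ncard ≤ 2 ^ (3 * (2 * (sS ν).card * n + 1) + ∑ d ∈ range (2 * (sS ν).card * n + 1), (ν d + 1)) := by
  set L := 2 * (sS ν).card * n + 1 with hL
  have hf := sH_finite (ν := ν) (L := L)
  have hi : Function.Injective fun x : (sH ν L).subgroupOf (sM ν) =>
      (⟨x.1.1, x.2⟩ : sH ν L) := fun x y h =>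
    Subtype.ext (Subtype.ext (congrArg (fun z : sH ν L => z.1) h))
  have hf' : Finite ((sH ν L).subgroupOf (sM ν)) := Finite.of_injective _ hi
  obtain ⟨E, hE, hc⟩ := exists_folner_box (K := Unit) (sS ν) n
    (fun a => (⟨ssh ν 1, sT_mem⟩ : sM ν) ^ (a ())) (fun a b => by simp [zpow_add])
    ((sH ν L).subgroupOf (sM ν)) fun s hs => by
      have key : ∀ a : Unit → ℤ, (∀ k, 0 ≤ a k ∧ a k ≤ (2 * (sS ν).card * n : ℕ)) →
          ∃ k : Fin L, a () = ((k : ℕ) : ℤ) := fun a ha => by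
        obtain ⟨h1, h2⟩ := ha ()
        exact ⟨⟨(a ()).toNat, by omega⟩, (Int.toNat_of_nonneg h1).symm⟩
      rcases mem_sS.1 hs with rfl | rfl | rfl
      · refine Or.inr fun a ha => ?_
        obtain ⟨k, hk⟩ := key a ha
        rw [Subgroup.mem_subgroupOf]
        simp only [Subgroup.coe_mul, Subgroup.coe_inv, Subgroup.coe_zpow, ssh_zpow, hk, sconj_A]
        exact ⟨_, _, 0, zero_mem _, rfl⟩
      · refine Or.inr fun a ha => ?_
        obtain ⟨k, hk⟩ := key a ha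
        rw [Subgroup.mem_subgroupOf]
        simp only [Subgroup.coe_mul, Subgroup.coe_inv, Subgroup.coe_zpow, ssh_zpow, hk, sconj_B]
        exact ⟨_, _, 0, zero_mem _, rfl⟩
      · exact Or.inl ⟨(), by simp⟩
  refine ⟨E, hE, hc.trans ?_⟩
  have h1 := (Nat.card_le_card_of_injective _ hi).trans (sH_card (ν := ν) (L := L))
  have h2 : L ≤ 2 ^ L := Nat.lt_two_pow_self.le
  rw [← hL, Fintype.card_unit, pow_one]
  refine (Nat.mul_le_mul h2 h1).trans (le_of_eq ?_)
  ring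

/-- membership in the group with a bound for the boundary -/
def SLen (ν : ℕ → ℕ) (E : Set (sM ν)) (k : ℕ) (g : SG ν) : Prop :=
  ∃ h : g ∈ sM ν, bd E ⟨g, h⟩ ≤ k

lemma SLen.mul {E : Set (sM ν)} (hE : E.Finite) {k l : ℕ} {g h : SG ν}
    (hg : SLen ν E k g) (hh : SLen ν E l h) : SLen ν E (k + l) (g * h) := by
  obtain ⟨g1, g2⟩ := hg
  obtain ⟨h1, h2⟩ := hh
  exact ⟨mul_mem g1 h1, (bd_mul hE ⟨g, g1⟩ ⟨h, h1⟩).trans (Nat.add_le_add g2 h2)⟩

lemma SLen.inv {E : Set (sM ν)} (hE : E.Finite) {k : ℕ} {g : SG ν}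
    (hg : SLen ν E k g) : SLen ν E k g⁻¹ := by
  obtain ⟨g1, g2⟩ := hg
  exact ⟨inv_mem g1, (bd_inv hE ⟨g, g1⟩).le.trans g2⟩

lemma SLen.mono {E : Set (sM ν)} {k l : ℕ} {g : SG ν} (hg : SLen ν E k g)
    (h : k ≤ l) : SLen ν E l g := ⟨hg.1, hg.2.trans h⟩

lemma SLen.one (E : Set (sM ν)) : SLen ν E 0 1 := ⟨one_mem _, (bd_one E).le⟩

lemma SLen.sh {E : Set (sM ν)} (hE : E.Finite) {m : ℕ} (hT : SLen ν E m (ssh ν 1)) (k : ℕ) :
    SLen ν E (k * m) (ssh ν (k : ℤ)) := by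
  induction k with
  | zero => simpa [ssh_zero] using SLen.one E
  | succ k ih =>
    rw [Nat.cast_succ, ssh_add, Nat.succ_mul]
    exact ih.mul hE hT

lemma SLen.word {E : Set (sM ν)} (hE : E.Finite) {m : ℕ} (hT : SLen ν E m (ssh ν 1))
    {s : SG ν} (hs : SLen ν E m s) (Ψ : (Fin L → ZMod 2) → SG ν)
    (h0 : Ψ 0 = 1) (hadd : ∀ u u', Ψ (u + u') = Ψ u * Ψ u')
    (h1 : ∀ k : Fin L, Ψ (Pi.single k 1) = (ssh ν ((k : ℕ) : ℤ))⁻¹ * s * ssh ν ((k : ℕ) : ℤ))
    (u : Fin L → ZMod 2) : SLen ν E (3 * L * m) (Ψ u) := by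
  have key : ∀ k, k ≤ L → SLen ν E (2 * k * m)
      (Ψ (fun j => if (j : ℕ) < k then u j else 0) * (ssh ν (k : ℤ))⁻¹) := by
    intro k
    induction k with
    | zero =>
      intro _
      have h : (fun j : Fin L => if (j : ℕ) < 0 then u j else 0) = 0 := by
        funext j
        simp
      rw [h, h0, Nat.cast_zero, ssh_zero, inv_one, mul_one]
      exact (SLen.one E).mono (Nat.zero_le _)
    | succ k ih =>
      intro hk
      have ih' := ih (by omega)
      have h : (fun j : Fin L => if (j : ℕ) < k + 1 then u j else 0) =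
          (fun j : Fin L => if (j : ℕ) < k then u j else 0) + Pi.single ⟨k, hk⟩ (u ⟨k, hk⟩) := by
        funext j
        by_cases hj : j = ⟨k, hk⟩
        · subst hj
          simp
        · have hj' : (j : ℕ) ≠ k := fun h => hj (Fin.ext h)
          have h2 : (j : ℕ) < k + 1 ↔ (j : ℕ) < k := by omega
          simp [Pi.single_eq_of_ne hj, h2]
      have hc : ∀ c : ZMod 2, c = 0 ∨ c = 1 := by decide
      rw [h, hadd, Nat.cast_succ, ssh_add]
      rcases hc (u ⟨k, hk⟩) with h2 | h2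
      · rw [h2, Pi.single_zero, h0, mul_one, ← ssh_add, add_comm (k : ℤ) 1, ssh_add, mul_inv_rev,
          ← mul_assoc]
        exact (ih'.mul hE (hT.inv hE)).mono (by nlinarith)
      · have h3 : Ψ (fun j : Fin L => if (j : ℕ) < k then u j else 0) *
            ((ssh ν (k : ℤ))⁻¹ * s * ssh ν (k : ℤ)) * (ssh ν 1 * ssh ν (k : ℤ))⁻¹ =
            Ψ (fun j : Fin L => if (j : ℕ) < k then u j else 0) * (ssh ν (k : ℤ))⁻¹ * s *
              (ssh ν 1)⁻¹ := by group
        rw [h2, h1, ← ssh_add, add_comm (k : ℤ) 1, ssh_add]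
        change SLen ν E _ (Ψ (fun j : Fin L => if (j : ℕ) < k then u j else 0) *
            ((ssh ν (k : ℤ))⁻¹ * s * ssh ν (k : ℤ)) * (ssh ν 1 * ssh ν (k : ℤ))⁻¹)
        rw [h3]
        exact ((ih'.mul hE hs).mul hE (hT.inv hE)).mono (by nlinarith)
  have h := (key L le_rfl).mul hE (SLen.sh hE hT L)
  have h' : (fun j : Fin L => if (j : ℕ) < L then u j else 0) = u := by
    funext j
    simp
  rw [h', inv_mul_cancel_right] at h
  exact h.mono (by nlinarith)

lemma SLen.comm {E : Set (sM ν)} (hE : E.Finite) {m : ℕ} (hT : SLen ν E m (ssh ν 1))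
    (hA : SLen ν E m (sA ν)) (hB : SLen ν E m (sB ν)) (u v : Fin L → ZMod 2) :
    SLen ν E (12 * L * m) (sPhi ν (0 : Fin L → ZMod 2) 0 (sbe ν u v)) := by
  have h1 := SLen.word hE hT hA (fun p : Fin L → ZMod 2 => sPhi ν p 0 0) sPhi_zero
    (fun p p' => by simp [sPhi_mul, sbe_zero_right]) (fun k => (sconj_A k).symm) u
  have h2 := SLen.word hE hT hB (fun q : Fin L → ZMod 2 => sPhi ν 0 q 0) sPhi_zero
    (fun p p' => by simp [sPhi_mul, sbe_zero_left]) (fun k => (sconj_B k).symm) v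
  have h3 : sPhi ν (0 : Fin L → ZMod 2) 0 (sbe ν u v) =
      sPhi ν u 0 0 * sPhi ν 0 v 0 * (sPhi ν 0 v 0 * sPhi ν u 0 0)⁻¹ := by
    rw [eq_mul_inv_iff_mul_eq]
    simp [sPhi_mul, sbe_zero_left]
  rw [h3]
  exact ((h1.mul hE h2).mul hE ((h2.mul hE h1).inv hE)).mono (by nlinarith)

/-- the span of the values of the cocycle -/
abbrev sK (ν : ℕ → ℕ) (L : ℕ) : AddSubgroup (SE ν) :=
  AddSubgroup.closure (Set.range fun z : (Fin L → ZMod 2) × (Fin L → ZMod 2) =>
    sbe ν z.1 z.2)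

lemma sK_mem (u v : Fin L → ZMod 2) : sbe ν u v ∈ sK ν L :=
  AddSubgroup.subset_closure ⟨(u, v), rfl⟩

/-- the cocycle as a bilinear map -/
def sbeta (ν : ℕ → ℕ) (L : ℕ) : (Fin L → ZMod 2) →+ (Fin L → ZMod 2) →+ sK ν L :=
  AddMonoidHom.mk' (fun u => AddMonoidHom.mk' (fun v => ⟨sbe ν u v, sK_mem u v⟩)
    fun v v' => Subtype.ext (sbe_add_right u v v'))
    fun u u' => AddMonoidHom.ext fun v => Subtype.ext (sbe_add_left u u' v)

lemma sbeta_gen : AddSubgroup.closure (Set.range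
    fun z : (Fin L → ZMod 2) × (Fin L → ZMod 2) => sbeta ν L z.1 z.2) = ⊤ := by
  rw [← AddSubgroup.closure_closure_coe_preimage (k := Set.range
    fun z : (Fin L → ZMod 2) × (Fin L → ZMod 2) => sbe ν z.1 z.2)]
  congr 1
  ext s
  constructor
  · rintro ⟨z, rfl⟩
    exact ⟨z, rfl⟩
  · rintro ⟨z, hz⟩
    exact ⟨z, Subtype.ext hz⟩

lemma sK_le : sK ν L ≤ sPer ν L := (AddSubgroup.closure_le _).2 (by
  rintro _ ⟨z, rfl⟩
  exact sbe_mem _ _)

lemma sK_finite : Finite (sK ν L) := by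
  have := sPer_finite (ν := ν) (L := L)
  exact Finite.of_injective _ (AddSubgroup.inclusion_injective sK_le)

lemma sPer_le (hν : ∀ d, ν d ≤ d) (n : ℕ) : ∀ D, D ≤ n → sPer ν D ≤ sK ν (2 * n) := by
  classical
  intro D
  induction D with
  | zero =>
    intro _ e he
    have h : e = 0 := funext fun d => he d (Nat.zero_le d)
    rw [h]
    exact zero_mem _
  | succ D ih =>
    intro hD e he
    have key : ∀ x : ZM ν D, ∃ b ∈ sK ν (2 * n), (∀ d, D < d → b d = 0) ∧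
        b D = Pi.single x (e D x) := fun x => by
      have hc : ∀ c : ZMod 2, c = 0 ∨ c = 1 := by decide
      rcases hc (e D x) with h2 | h2
      · exact ⟨0, zero_mem _, fun _ _ => rfl, by rw [h2, Pi.single_zero]; rfl⟩
      · have hx := ZMod.val_lt x
        have hx' := hν D
        refine ⟨_, sK_mem (Pi.single ⟨x.val, by omega⟩ 1) (Pi.single ⟨x.val + D, by omega⟩ 1),
          fun d hd => funext fun y => ?_, funext fun y => ?_⟩
        · change sgam ν d _ _ y = 0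
          rw [sgam_single, sext_single, ← Nat.cast_add, if_neg (s_ne (by simp only; omega)
            (by simp only; omega)), ite_self]
        · change sgam ν D _ _ y = _
          rw [sgam_single, sext_single, ← Nat.cast_add, if_pos rfl, h2, Pi.single_apply]
          simp
    choose b b1 b2 b3 using key
    have h1 : e + ∑ x, b x ∈ sPer ν D := fun d hd => by
      rw [Pi.add_apply, Finset.sum_apply]
      rcases hd.eq_or_lt with rfl | hd'
      · rw [sum_congr rfl fun x _ => b3 x, univ_sum_single, s_self]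
      · rw [he d hd', sum_eq_zero fun x _ => b2 x d hd', add_zero]
    have h2 := add_mem (ih (by omega) h1) (sum_mem fun x (_ : x ∈ univ) => b1 x)
    rwa [add_assoc, s_selfE, add_zero] at h2

lemma sK_card (hν : ∀ d, ν d ≤ d) (n : ℕ) :
    2 ^ ∑ d ∈ range n, (ν d + 1) ≤ Nat.card (sK ν (2 * n)) := by
  have := sK_finite (ν := ν) (L := 2 * n)
  rw [← sPer_card]
  exact Nat.card_le_card_of_injective _ (AddSubgroup.inclusion_injective (sPer_le hν n n le_rfl))

lemma sM_rf : Group.ResiduallyFinite (sM ν) := by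
  refine Group.residuallyFinite_of_forall_exists_finite_monoidHom.{0} fun g hg => ?_
  obtain ⟨d, hd⟩ : ∃ d, (g : SG ν) d ≠ 1 :=
    by_contra fun h => hg (Subtype.ext (funext fun d => by_contra fun h' => h ⟨d, h'⟩))
  exact ⟨Equiv.Perm (SO ν d), inferInstance, inferInstance,
    (Pi.evalMonoidHom (fun d => Equiv.Perm (SO ν d)) d).comp (sM ν).subtype, hd⟩

lemma s_lower (hν : ∀ d, ν d ≤ d) (n : ℕ) {E : Set (sM ν)}
    (hE : IsFolner (sS ν) (48 * n) E) : 2 ^ ∑ d ∈ range n, (ν d + 1) ≤ 2 * E.ncard := by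
  obtain ⟨hf, -, hb⟩ := isFolner_iff.1 hE
  obtain ⟨s, hs, hm⟩ := exists_max_image (sS ν) (bd E) ⟨_, mem_sS.2 (Or.inl rfl)⟩
  have hA : SLen ν E (bd E s) (sA ν) := ⟨sA_mem, hm _ (mem_sS.2 (Or.inl rfl))⟩
  have hB : SLen ν E (bd E s) (sB ν) := ⟨sB_mem, hm _ (mem_sS.2 (Or.inr (Or.inl rfl)))⟩
  have hT : SLen ν E (bd E s) (ssh ν 1) := ⟨sT_mem, hm _ (mem_sS.2 (Or.inr (Or.inr rfl)))⟩
  have hadd : ∀ e e' : SE ν, sPhi ν (0 : Fin (2 * n) → ZMod 2) 0 (e + e') =
      sPhi ν (0 : Fin (2 * n) → ZMod 2) 0 e * sPhi ν (0 : Fin (2 * n) → ZMod 2) 0 e' :=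
    fun e e' => by simp [sPhi_mul, sbe_zero_left]
  have hmem : ∀ e ∈ sK ν (2 * n), sPhi ν (0 : Fin (2 * n) → ZMod 2) 0 e ∈ sM ν := by
    intro e he
    induction he using AddSubgroup.closure_induction with
    | mem e he =>
      obtain ⟨z, rfl⟩ := he
      exact (SLen.comm hf hT hA hB z.1 z.2).1
    | zero =>
      rw [sPhi_zero]
      exact one_mem _
    | add e e' _ _ h h' =>
      rw [hadd]
      exact mul_mem h h'
    | neg e _ h => rwa [neg_eq_of_add_eq_zero_right (s_selfE e)]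
  have := sK_finite (ν := ν) (L := 2 * n)
  refine (sK_card hν n).trans (card_lt_of_gap (sbeta ν (2 * n)) sbeta_gen
    (fun e => (⟨_, hmem e e.2⟩ : sM ν)) (fun x y => Subtype.ext (hadd _ _))
    (fun x y h => Subtype.ext (sPhi_inj (congrArg Subtype.val h))) hf fun u v => ?_).le
  have h1 := (SLen.comm hf hT hA hB u v).2
  have h2 := hb s hs
  refine lt_of_le_of_lt (Nat.mul_le_mul_left 4 h1) (lt_of_eq_of_lt ?_ h2)
  ring

theorem realise_tau_rf (τ : ℕ → ℕ) (h0 : τ 0 = 0) (hm : Monotone τ)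
    (hτ : ∀ n, τ (n + 1) ≤ τ n + n) :
    ∃ (M : Type) (_ : Group M) (S : Finset M), Subgroup.closure (S : Set M) = ⊤ ∧
      Group.ResiduallyFinite M ∧
      (∀ n, ∃ E, IsFolner S n E) ∧ SameGrowth (fun n => 2 ^ (n + τ n)) (folner S) := by
  obtain ⟨ν, hν0⟩ : ∃ ν : ℕ → ℕ, ∀ d, ν d = τ (d + 1) - τ d := ⟨_, fun _ => rfl⟩
  have hν : ∀ d, ν d ≤ d := fun d => by have := hτ d; rw [hν0]; omega
  have hs : ∀ n, ∑ d ∈ range n, (ν d + 1) = n + τ n := fun n => by
    induction n with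
    | zero => simp [h0]
    | succ n ih =>
      have := hm (Nat.le_succ n)
      rw [sum_range_succ, ih, hν0]
      simp only [Nat.succ_eq_add_one] at this
      omega
  have hex : ∀ n, ∃ E, IsFolner (sS ν) n E := fun n => (s_upper n).imp fun _ h => h.1
  refine ⟨sM ν, inferInstance, sS ν, closure_sS, sM_rf, hex, ⟨48, by norm_num, fun n _ => ?_⟩,
    ⟨28, by norm_num, fun n hn => ?_⟩⟩
  · obtain ⟨E, hE, hc⟩ := folner_spec (hex (48 * n))
    have h := s_lower hν n hE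
    rw [hs, hc] at h
    exact h.trans (Nat.mul_le_mul_right _ (by norm_num))
  · obtain ⟨E, hE, hc⟩ := s_upper (ν := ν) n
    have h1 : 2 * (sS ν).card * n ≤ 2 * 3 * n :=
      Nat.mul_le_mul_right _ (Nat.mul_le_mul_left _ card_sS)
    have h2 : τ (2 * (sS ν).card * n + 1) ≤ τ (28 * n) := hm (by omega)
    rw [hs] at hc
    refine ((folner_le hE).trans hc).trans (le_trans ?_ (Nat.le_mul_of_pos_left _ (by norm_num)))
    exact Nat.pow_le_pow_right (by norm_num) (by omega)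

end Pool.Agent.MP_e6aac2_al.H11S
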